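import Pool.Agent.Helper15.NX2.DaggerOf
import Pool.Agent.Helper9.NX2.DlTotal
import Pool.Agent.Helper74.NX2.LpArith

/-!
# Project NX2: the dual function at the top has large progression averages (A30)
-/

set_option autoImplicit false

open Finset
open scoped BigOperators ComplexConjugate

namespace Pool.Agent.Helper67.NX2

open Pool.Agent.Helper57.NX

noncomputable section

theorem dagger (hES : ES0) (m : ℕ) (c : Fin (m + 1) → ℝ) (hc : Ex c) (d : ℕ)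
    (hd : c (Fin.last m) = d) (s : ℝ) (hs0 : 0 < s) (hs : s < 1)
    (hT : ∀ ε : ℝ, 0 < ε → TopPm m c s ε) (hD : ∀ ε : ℝ, 0 < ε → DsPm m c s ε) :
    ∀ κ : ℝ, 0 < κ → ∃ x0 : ℝ, 0 < x0 ∧ ∃ C : ℕ, ∃ σ : ℝ, 0 < σ ∧ ∃ D0 : ℝ,
    ∀ (S : Sys (m + 1)) (N : ℕ) [NeZero N] (lam : ℕ), D0 ≤ S.D → IG S c N x0 lam →
    ∀ δ : ℝ, S.D ^ (-σ) ≤ δ → δ ≤ 1 / 2 → (lam : ℝ) ≤ δ⁻¹ →
    ∀ (f0 : ZMod N → ℂ) (f : Fin (m + 1) → ZMod N → ℂ),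
    Adm δ⁻¹ S.Q f0 → (∀ i, Adm δ⁻¹ S.Q (f i)) → δ ≤ ‖form S c 1 f0 f‖ →
    ∃ q : ℕ, 1 ≤ q ∧ (q : ℝ) ≤ δ⁻¹ ^ C ∧ ∀ L : ℕ, 1 ≤ L → (L : ℝ) ≤ S.D ^ (s - κ) →
      δ ^ C ≤ nrm (Aq (S.Q * q) L (dual S c 1 f0 f (Fin.last m))) :=
  dagger_of15 dl_total' m c hc d hd s hs0 hs (lp_arith hES m c hc d hd s hs0 hs.le hT hD)

end

end Pool.Agent.Helper67.NX2
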