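import Pool.Agent.Helper55.NX2.AqBasic
import Pool.Agent.Helper40.NX2.IGBasic
import Pool.Agent.Helper82.NX2.Fib
import Pool.Agent.Helper91.NX2.GncArith
import Pool.Agent.Helper67.NX.FormCube
import Pool.Agent.Helper85.NX.Form

/-!
# Project NX2: the dual function at the top has large progression averages (A30), from the
degree lowering and the statement on block phases along progressions
-/

set_option autoImplicit false

open Finset
open scoped BigOperators ComplexConjugate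

namespace Pool.Agent.Helper67.NX2

open Pool.Agent.Helper57.NX

noncomputable section

/-- the statement of the degree lowering -/
def DlTot15 : Prop :=
  ∀ (r : ℕ) (Γ : ℕ → ℕ → ℕ) (n : ℕ), ∃ n4 : ℕ,
    ∀ (p : ℕ) [NeZero p] (κ ι : Type) [Fintype κ] [Nonempty κ] (Ω : Finset ι)
      (F : ι → κ → ZMod p → ℂ) (u : κ → ZMod p → ℂ) (δ : ℝ) (X : ℕ), p.Prime → Ω.Nonempty →
      (∀ n i x, ‖F n i x‖ ≤ 1) → (∀ i x, u i x = conj (𝔼 n ∈ Ω, F n i x)) →
      0 < δ → δ ≤ 1 / 2 → δ⁻¹ ^ n4 ≤ (X : ℝ) → (X : ℝ) ≤ δ ^ n4 * p →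
      δ ^ n ≤ 𝔼 i, Box r X (u i) →
      (∀ nq ≤ n4, ∀ q : ℕ, 1 ≤ q → (q : ℝ) ≤ δ⁻¹ ^ nq → ∀ k ≤ r, ∀ n2 ≤ n4, ∀ X2 X' : ℕ,
        δ ^ n4 * X ≤ X2 → X2 ≤ X → 1 ≤ X' → X' ≤ X2 →
        LPhM Ω (fun n i z => F n i ((q : ZMod p) * z)) k X' X2 (δ⁻¹ ^ (Γ nq n2))
          (δ⁻¹ ^ (Γ nq n2) / X2) (δ ^ n2)) →
      ∃ q : ℕ, 1 ≤ q ∧ (q : ℝ) ≤ δ⁻¹ ^ n4 ∧ ∀ L : ℕ, 1 ≤ L → (L : ℝ) ≤ δ ^ n4 * X →
        δ ^ n4 ≤ 𝔼 i, nrm (A L (fun z => u i ((q : ZMod p) * z)))

/-- block phases along progressions without major frequencies have a small form -/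
def LpSt15 (m : ℕ) (c : Fin (m + 1) → ℝ) (s : ℝ) : Prop :=
    ∃ x0 : ℝ, 0 < x0 ∧ ∃ C : ℕ, ∃ σ : ℝ, 0 < σ ∧ ∃ D0 : ℝ,
    ∀ (S : Sys (m + 1)) (N : ℕ) [NeZero N] (lam : ℕ), D0 ≤ S.D → IG S c N x0 lam →
    ∀ δ : ℝ, S.D ^ (-σ) ≤ δ → δ ≤ 1 / 2 → (lam : ℝ) ≤ δ⁻¹ →
    ∀ (p : ℕ) [NeZero p], p.Prime → N = S.Q * p → ∀ q : ℕ, 1 ≤ q → (q : ℝ) ≤ δ⁻¹ →
    ∀ X : ℕ, 1 ≤ X → S.D ^ (s - σ) ≤ (X : ℝ) → (X : ℝ) * δ⁻¹ ^ C ≤ S.D ^ s →
    ∀ (f0 : ZMod N → ℂ) (f : Fin m → ZMod N → ℂ), Adm δ⁻¹ S.Q f0 → (∀ i, Adm δ⁻¹ S.Q (f i)) →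
    ∀ (r : ZMod p) (cc : ℕ → ℕ → ℂ) (φ : ℕ → ℕ → ℝ), (∀ e j, ‖cc e j‖ ≤ 1) →
    (∀ e j, cc e j ≠ 0 → ∀ q' : ℕ, 1 ≤ q' → (q' : ℝ) ≤ δ⁻¹ ^ C →
      δ⁻¹ ^ C / X < dint (q' * φ e j)) →
    ‖form S c 1 f0 (Fin.snoc (α := fun _ => ZMod N → ℂ) f (apb S.Q q X r cc φ))‖ < δ

section Str
variable {m N : ℕ} [NeZero N]

private theorem cubeq_Fk15 (S : Sys (m + 1)) (c : Fin (m + 1) → ℝ) (f0 : ZMod N → ℂ)
    (f : Fin m → ZMod N → ℂ) (k st : ℕ) {l : ℕ} (a b : Fin l → ℕ) (x : ZMod N) :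
    cubeq st (Fk67 S c f0 f k) a b x =
      Fk67 S c (cubeq st f0 a b) (fun i => cubeq st (f i) a b) k x := by
  unfold cubeq Fk67
  rw [prod_comm, ← prod_mul_distrib]
  refine prod_congr rfl fun ω _ => ?_
  rw [cjj_mul67, cjj_prod67]
  congr 1
  · congr 2
    ring
  · refine prod_congr rfl fun i _ => ?_
    congr 2
    ring

private theorem cube_fib15 {p : ℕ} [NeZero p] {Q q : ℕ} (hN : N = Q * p) (f : ZMod N → ℂ) (e : ℕ)
    {l : ℕ} (a b : Fin l → ℕ) (z : ZMod p) :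
    cube (fib Q q f e) a b z = cubeq (Q * q) f a b ((Q * (q * z.val) + e : ℕ) : ZMod N) := by
  unfold cube cubeq
  refine prod_congr rfl fun ω _ => ?_
  rw [fib_add hN]

/-- extension to `ℕ` -/
private def ext15 {Q : ℕ} {α : Type} [Zero α] (cc : Fin Q → ℕ → α) (e j : ℕ) : α :=
  if h : e < Q then cc ⟨e, h⟩ j else 0

private theorem ext15_of_lt {Q : ℕ} {α : Type} [Zero α] (cc : Fin Q → ℕ → α) (e : Fin Q) :
    ext15 cc e = cc e := by
  funext j
  unfold ext15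
  rw [dif_pos e.2]

private theorem expect_fib15 {p : ℕ} [NeZero p] (hp : p.Prime) {Q q X : ℕ} (hN : N = Q * p)
    (hq : 1 ≤ q) (hqp : q < p) (f : ZMod N → ℂ) {l : ℕ} (a b : Fin l → ℕ) (r : ZMod p)
    (cc : Fin Q → ℕ → ℂ) (φ : Fin Q → ℕ → ℝ) :
    𝔼 e : Fin Q, 𝔼 z : ZMod p, cube (fib Q q f e) a b z * bphase X r (cc e) (φ e) z =
      𝔼 x : ZMod N, cubeq (Q * q) f a b x * apb Q q X r (ext15 cc) (ext15 φ) x := by
  rw [← expect_fib hp hN hq hqp
    (fun x => cubeq (Q * q) f a b x * apb Q q X r (ext15 cc) (ext15 φ) x)]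
  refine expect_congr rfl fun e _ => expect_congr rfl fun z _ => ?_
  rw [cube_fib15 hN, apb_fib hp hN hq hqp r (ext15 cc) (ext15 φ) e e.2 z, ext15_of_lt, ext15_of_lt]

/-- correlations of cubes of fibres with block phases are forms -/
private theorem form_fib15 (S : Sys (m + 1)) (c : Fin (m + 1) → ℝ) (f0 : ZMod N → ℂ)
    (f : Fin m → ZMod N → ℂ) {p : ℕ} [NeZero p] (hp : p.Prime) {Q q X : ℕ} (hN : N = Q * p)
    (hq : 1 ≤ q) (hqp : q < p) {l : ℕ} (a b : Fin l → ℕ) (r : ZMod p)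
    (cc : Fin Q → ℕ → ℂ) (φ : Fin Q → ℕ → ℝ) :
    𝔼 k ∈ S.I, 𝔼 e : Fin Q, 𝔼 z : ZMod p, cube (fib Q q (Fk67 S c f0 f k) e) a b z *
        bphase X r (cc e) (φ e) z =
      form S c 1 (cubeq (Q * q) f0 a b) (Fin.snoc (α := fun _ => ZMod N → ℂ)
        (fun i => cubeq (Q * q) (f i) a b) (apb Q q X r (ext15 cc) (ext15 φ))) := by
  rw [form_snoc67]
  refine expect_congr rfl fun k _ => ?_
  rw [expect_fib15 hp hN hq hqp]
  refine expect_congr rfl fun x _ => ?_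
  rw [cubeq_Fk15]

private theorem conj_expect15 {ι : Type*} (s : Finset ι) (g : ι → ℂ) :
    conj (𝔼 i ∈ s, g i) = 𝔼 i ∈ s, conj (g i) := by
  rw [Finset.expect_eq_sum_div_card, Finset.expect_eq_sum_div_card, map_div₀, map_sum,
    Complex.conj_natCast]

private theorem nrm_Aq_conj15 (st L : ℕ) (f : ZMod N → ℂ) :
    nrm (Aq st L (fun x => conj (f x))) = nrm (Aq st L f) := by
  unfold nrm Aq
  refine expect_congr rfl fun x _ => ?_
  rw [← conj_expect15, Complex.norm_conj]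

/-- the form with the conjugate of the dual function -/
private theorem form_dual15 (S : Sys (m + 1)) (c : Fin (m + 1) → ℝ) (f0 : ZMod N → ℂ)
    (f : Fin (m + 1) → ZMod N → ℂ) :
    form S c 1 f0 (Function.update f (Fin.last m)
      (fun x => conj (dual S c 1 f0 f (Fin.last m) x))) =
      ((𝔼 x, ‖dual S c 1 f0 f (Fin.last m) x‖ ^ 2 : ℝ) : ℂ) := by
  rw [form_dual]
  push_cast
  refine expect_congr rfl fun x _ => ?_
  rw [mul_comm, Complex.mul_conj, Complex.normSq_eq_norm_sq]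
  push_cast
  rfl

private theorem sq_le_dual15 (S : Sys (m + 1)) (c : Fin (m + 1) → ℝ) (f0 : ZMod N → ℂ)
    (f : Fin (m + 1) → ZMod N → ℂ) (hf : ∀ x, ‖f (Fin.last m) x‖ ≤ 1) {δ : ℝ} (hδ : 0 ≤ δ)
    (h : δ ≤ ‖form S c 1 f0 f‖) :
    δ ^ 2 ≤ 𝔼 x, ‖dual S c 1 f0 f (Fin.last m) x‖ ^ 2 := by
  have e1 : form S c 1 f0 f = 𝔼 x, f (Fin.last m) x * dual S c 1 f0 f (Fin.last m) x := by
    rw [← form_dual, Function.update_eq_self]
  have e2 : ‖form S c 1 f0 f‖ ≤ 𝔼 x, 1 * ‖dual S c 1 f0 f (Fin.last m) x‖ := by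
    rw [e1]
    refine (RCLike.norm_expect_le (K := ℂ)).trans (expect_le_expect fun x _ => ?_)
    rw [norm_mul]
    exact mul_le_mul_of_nonneg_right (hf x) (norm_nonneg _)
  refine (pow_le_pow_left₀ hδ (h.trans e2) 2).trans ?_
  refine (expect_mul_sq_le_sq_mul_sq univ (fun _ => (1 : ℝ))
    fun x => ‖dual S c 1 f0 f (Fin.last m) x‖).trans ?_
  refine mul_le_of_le_one_left (expect_nonneg fun k _ => by positivity) ?_
  simp

end Str

/-- powers of `δ` -/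
private theorem pow_ge15 {D δ σ τ : ℝ} {j K : ℕ} (hD : 1 ≤ D) (hσ0 : 0 ≤ σ) (hσ : σ * K ≤ τ)
    (h : D ^ (-σ) ≤ δ) (hj : j ≤ K) : D ^ (-τ) ≤ δ ^ j := by
  have h0 : (0 : ℝ) < D := by linarith
  calc D ^ (-τ) ≤ D ^ (-σ * j) := by
        apply Real.rpow_le_rpow_of_exponent_le hD
        have h1 : σ * j ≤ σ * K := mul_le_mul_of_nonneg_left (by exact_mod_cast hj) hσ0
        linarith
    _ = (D ^ (-σ)) ^ j := by rw [Real.rpow_mul h0.le, Real.rpow_natCast]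
    _ ≤ δ ^ j := pow_le_pow_left₀ (Real.rpow_nonneg h0.le _) h j

private theorem inv_pow_le15 {D δ τ : ℝ} {j : ℕ} (hD : 0 < D) (h : D ^ (-τ) ≤ δ ^ j) :
    δ⁻¹ ^ j ≤ D ^ τ := by
  have h1 : 0 < D ^ (-τ) := Real.rpow_pos_of_pos hD _
  rw [inv_pow]
  calc (δ ^ j)⁻¹ ≤ (D ^ (-τ))⁻¹ := inv_anti₀ h1 h
    _ = D ^ τ := by rw [Real.rpow_neg hD.le, inv_inv]

set_option maxHeartbeats 1000000 in
theorem dagger_of15 (hdl : DlTot15) (m : ℕ) (c : Fin (m + 1) → ℝ) (hc : Ex c) (d : ℕ)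
    (hd : c (Fin.last m) = d) (s : ℝ) (hs0 : 0 < s) (hs : s < 1) (hlp : LpSt15 m c s) :
    ∀ κ : ℝ, 0 < κ → ∃ x0 : ℝ, 0 < x0 ∧ ∃ C : ℕ, ∃ σ : ℝ, 0 < σ ∧ ∃ D0 : ℝ,
    ∀ (S : Sys (m + 1)) (N : ℕ) [NeZero N] (lam : ℕ), D0 ≤ S.D → IG S c N x0 lam →
    ∀ δ : ℝ, S.D ^ (-σ) ≤ δ → δ ≤ 1 / 2 → (lam : ℝ) ≤ δ⁻¹ →
    ∀ (f0 : ZMod N → ℂ) (f : Fin (m + 1) → ZMod N → ℂ),
    Adm δ⁻¹ S.Q f0 → (∀ i, Adm δ⁻¹ S.Q (f i)) → δ ≤ ‖form S c 1 f0 f‖ →
    ∃ q : ℕ, 1 ≤ q ∧ (q : ℝ) ≤ δ⁻¹ ^ C ∧ ∀ L : ℕ, 1 ≤ L → (L : ℝ) ≤ S.D ^ (s - κ) →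
      δ ^ C ≤ nrm (Aq (S.Q * q) L (dual S c 1 f0 f (Fin.last m))) := by
  intro κ hκ
  obtain ⟨xg, hxg, r, Cg, σg, hσg, Dg, hg⟩ := gnc_arith m c hc d hd (1 - s) (by linarith)
  obtain ⟨xl, hxl, Cl, σl, hσl, Dl, hl⟩ := hlp
  obtain ⟨n4, h4⟩ := hdl r
    (fun nq n2 => Cl * (max n2 (nq + (m + 3) * Cg) + r + 2)) ((m + 3) * Cg)
  set n : ℕ := (m + 3) * Cg with hn
  set K : ℕ := n4 + n + r + 2 with hK
  set Ka : ℕ := (m + 3) + K + Cl * K + n4 + n + 1 with hKa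
  set τ : ℝ := min σg (min σl (min κ s)) with hτ
  have hτ0 : 0 < τ := lt_min hσg (lt_min hσl (lt_min hκ hs0))
  have hτg : τ ≤ σg := min_le_left _ _
  have hτl : τ ≤ σl := (min_le_right _ _).trans (min_le_left _ _)
  have hτκ : τ ≤ κ := (min_le_right _ _).trans ((min_le_right _ _).trans (min_le_left _ _))
  have hτs : τ ≤ s := (min_le_right _ _).trans ((min_le_right _ _).trans (min_le_right _ _))
  have hKa1 : (1 : ℝ) ≤ (Ka : ℝ) := by
    have : 1 ≤ Ka := by omega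
    exact_mod_cast this
  clear_value τ
  have hσ0 : 0 < τ / (8 * Ka) := by positivity
  refine ⟨min xg (min xl (1 / 4)), lt_min hxg (lt_min hxl (by norm_num)), n4 + n,
    τ / (8 * Ka), hσ0, max Dg (max Dl (2 ^ (8 / τ))), ?_⟩
  intro S N _ lam hSD hI δ hδ1 hδ2 hlam f0 f h0 hf hform
  have hDg : Dg ≤ S.D := (le_max_left _ _).trans hSD
  have hDl : Dl ≤ S.D := (le_max_left _ _).trans ((le_max_right _ _).trans hSD)
  have hD2 : (2 : ℝ) ^ (8 / τ) ≤ S.D := (le_max_right _ _).trans ((le_max_right _ _).trans hSD)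
  have hD1' : 1 < S.D := lt_of_lt_of_le (Real.one_lt_rpow (by norm_num) (by positivity)) hD2
  have hD1 : 1 ≤ S.D := hD1'.le
  have hD0 : 0 < S.D := by linarith
  have hDτ : 2 ≤ S.D ^ (τ / 8) := by
    calc (2 : ℝ) = ((2 : ℝ) ^ (8 / τ)) ^ (τ / 8) := by
          rw [← Real.rpow_mul (by norm_num)]
          rw [show 8 / τ * (τ / 8) = 1 by field_simp, Real.rpow_one]
      _ ≤ S.D ^ (τ / 8) := Real.rpow_le_rpow (by positivity) hD2 (by positivity)
  have hδ0 : 0 < δ := lt_of_lt_of_le (Real.rpow_pos_of_pos hD0 _) hδ1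
  have hδle1 : δ ≤ 1 := by linarith
  have hδi : 1 ≤ δ⁻¹ := (one_le_inv₀ hδ0).2 hδle1
  have hδi2 : 2 ≤ δ⁻¹ := by
    rw [le_inv_comm₀ (by norm_num) hδ0]
    linarith
  -- powers of `δ`
  have hpow : ∀ j : ℕ, j ≤ Ka → S.D ^ (-(τ / 8)) ≤ δ ^ j := by
    intro j hj
    refine pow_ge15 hD1 hσ0.le (le_of_eq ?_) hδ1 hj
    field_simp
  have hpowi : ∀ j : ℕ, j ≤ Ka → δ⁻¹ ^ j ≤ S.D ^ (τ / 8) := fun j hj =>
    inv_pow_le15 hD0 (hpow j hj)
  -- the prime
  obtain ⟨p, hp, hN⟩ := hI.prime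
  haveI : NeZero p := ⟨hp.ne_zero⟩
  have hIg : IG S c N xg lam := hI.mono (min_le_left _ _) hD1
  have hIl : IG S c N xl lam := hI.mono ((min_le_right _ _).trans (min_le_left _ _)) hD1
  have hI4 : IG S c N (1 / 4) lam := hI.mono ((min_le_right _ _).trans (min_le_right _ _)) hD1
  have hQ0 : (0 : ℝ) < S.Q := lt_of_lt_of_le (Real.rpow_pos_of_pos hD0 _) hI4.good.Q1
  have hQ1 : 0 < S.Q := by exact_mod_cast hQ0
  haveI : NeZero S.Q := ⟨hQ1.ne'⟩
  have hpD : S.D ≤ p := by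
    have e1 := (hI4.good.P1 (Fin.last m)).trans (hI4.good.N1 (Fin.last m))
    rw [hN] at e1
    push_cast at e1
    rw [mul_assoc] at e1
    have e2 : S.D ^ (c (Fin.last m) - 1 / 4) ≤ p * S.D ^ ((1 : ℝ) / 4) := le_of_mul_le_mul_left e1 hQ0
    have e3 : S.D * S.D ^ ((1 : ℝ) / 4) ≤ S.D ^ (c (Fin.last m) - 1 / 4) := by
      rw [← Real.rpow_one_add' hD0.le (by norm_num)]
      apply Real.rpow_le_rpow_of_exponent_le hD1
      have := hc.two (Fin.last m)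
      linarith
    exact le_of_mul_le_mul_right (e3.trans e2) (Real.rpow_pos_of_pos hD0 _)
  -- the dual function
  set F : ZMod N → ℂ := dual S c 1 f0 f (Fin.last m) with hF
  have hIne : S.I.Nonempty := by
    have hT1 : (0 : ℝ) < S.T := lt_of_lt_of_le (Real.rpow_pos_of_pos hD0 _) hI4.good.T1
    have hT2 : 0 < S.T := by exact_mod_cast hT1
    exact ⟨S.u, mem_Ico.2 ⟨le_rfl, by omega⟩⟩
  set u : ZMod N → ℂ := fun x => conj (F x) with hu
  have huA : Adm ((m + 1 : ℕ) * δ⁻¹) S.Q u := by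
    refine Adm.cnj ?_
    exact Adm.dual hQ0 S c 1 (fun k => by simp) (Fin.last m) h0 (fun j _ => hf j) hIne
  -- the generalised von Neumann theorem
  set δ1 : ℝ := δ ^ (m + 3) with hδ1def
  have hδ10 : 0 < δ1 := pow_pos hδ0 _
  have hδ1i : δ1⁻¹ = δ⁻¹ ^ (m + 3) := by rw [hδ1def, inv_pow]
  have hδδ1 : δ⁻¹ ≤ δ1⁻¹ := by
    rw [hδ1i]
    exact le_self_pow₀ hδi (by omega)
  have hmδ : ((m + 1 : ℕ) : ℝ) * δ⁻¹ ≤ δ1⁻¹ := by
    rw [hδ1i]
    calc ((m + 1 : ℕ) : ℝ) * δ⁻¹ ≤ 2 ^ (m + 1) * δ⁻¹ := by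
          apply mul_le_mul_of_nonneg_right _ (by positivity)
          have : m + 1 < 2 ^ (m + 1) := Nat.lt_two_pow_self
          exact_mod_cast this.le
      _ ≤ δ⁻¹ ^ (m + 1) * δ⁻¹ := by
          apply mul_le_mul_of_nonneg_right _ (by positivity)
          exact pow_le_pow_left₀ (by norm_num) hδi2 _
      _ = δ⁻¹ ^ (m + 2) := by ring
      _ ≤ δ⁻¹ ^ (m + 3) := pow_le_pow_right₀ hδi (by omega)
  obtain ⟨q0, hq01, hq0, hbox⟩ := hg S N lam hDg hIg δ1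
    ((Real.rpow_le_rpow_of_exponent_le hD1 (by linarith)).trans (hpow (m + 3) (by omega)))
    ((pow_le_of_le_one hδ0.le hδle1 (by omega)).trans hδ2) (hlam.trans hδδ1) f0
    (Function.update f (Fin.last m) u) (h0.mono hδδ1 hQ0 le_rfl)
    (fun i => by
      by_cases hi : i = Fin.last m
      · subst hi
        rw [Function.update_self]
        exact huA.mono hmδ hQ0 le_rfl
      · rw [Function.update_of_ne hi]
        exact (hf i).mono hδδ1 hQ0 le_rfl)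
    (by
      rw [form_dual15, Complex.norm_real, Real.norm_of_nonneg
        (expect_nonneg fun _ _ => by positivity)]
      refine le_trans ?_ (sq_le_dual15 S c f0 f (hf (Fin.last m)).bdd hδ0.le hform)
      exact pow_le_pow_of_le_one hδ0.le hδle1 (by omega))
  have hCg : δ1 ^ Cg = δ ^ n := by rw [hδ1def, ← pow_mul]
  have hCgi : δ1⁻¹ ^ Cg = δ⁻¹ ^ n := by rw [hδ1i, ← pow_mul]
  rw [hCgi] at hq0
  rw [Function.update_self] at hbox
  -- the length
  set H : ℕ := ⌊S.D ^ (s - τ / 2)⌋₊ with hH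
  have hH1 : (H : ℝ) ≤ S.D ^ (s - τ / 2) := Nat.floor_le (by positivity)
  have hH2 : S.D ^ (s - 5 * τ / 8) ≤ (H : ℝ) := by
    have e1 : 1 ≤ S.D ^ (s - τ / 2) := Real.one_le_rpow hD1 (by linarith)
    have e2 : S.D ^ (s - τ / 2) < H + 1 := Nat.lt_floor_add_one _
    have e4 : 1 ≤ H := Nat.floor_pos.2 e1
    have e4' : (1 : ℝ) ≤ H := by exact_mod_cast e4
    have e5 : S.D ^ (s - τ / 2) = S.D ^ (s - 5 * τ / 8) * S.D ^ (τ / 8) := by
      rw [← Real.rpow_add hD0]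
      congr 1
      ring
    have e6 : S.D ^ (s - 5 * τ / 8) * 2 ≤ S.D ^ (s - 5 * τ / 8) * S.D ^ (τ / 8) :=
      mul_le_mul_of_nonneg_left hDτ (by positivity)
    linarith
  have hHpos : 1 ≤ H := Nat.floor_pos.2 (Real.one_le_rpow hD1 (by linarith))
  have hbox1 : δ ^ n ≤ 𝔼 e : Fin S.Q, Box r H (fib (p := p) S.Q q0 u e) := by
    rw [← hCg]
    refine (hbox H hHpos (hH1.trans ?_)).trans (le_of_eq ?_)
    · apply Real.rpow_le_rpow_of_exponent_le hD1
      linarith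
    · refine Boxq_fib hp hN hq01 ?_ r H u
      have e1 : (q0 : ℝ) ≤ S.D ^ (τ / 8) := hq0.trans (hpowi n (by omega))
      have e2 : S.D ^ (τ / 8) < S.D := by
        conv_rhs => rw [← Real.rpow_one S.D]
        exact Real.rpow_lt_rpow_of_exponent_lt hD1' (by linarith)
      exact_mod_cast lt_of_le_of_lt e1 (lt_of_lt_of_le e2 hpD)
  have hlt : ∀ t : ℕ, (t : ℝ) ≤ S.D ^ (τ / 8) → t < p := by
    intro t ht
    have e2 : S.D ^ (τ / 8) < S.D := by
      conv_rhs => rw [← Real.rpow_one S.D]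
      exact Real.rpow_lt_rpow_of_exponent_lt hD1' (by linarith)
    exact_mod_cast lt_of_le_of_lt ht (lt_of_lt_of_le e2 hpD)
  have hn4H : ∀ j : ℕ, j ≤ Ka → S.D ^ (s - 3 * τ / 4) ≤ δ ^ j * H := by
    intro j hj
    calc S.D ^ (s - 3 * τ / 4) = S.D ^ (-(τ / 8)) * S.D ^ (s - 5 * τ / 8) := by
          rw [← Real.rpow_add hD0]
          congr 1
          ring
      _ ≤ δ ^ j * H := mul_le_mul (hpow j hj) hH2 (by positivity) (by positivity)
  obtain ⟨q1, hq11, hq1, hfin⟩ := h4 p (Fin S.Q) ℕ S.I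
    (fun k e => fib (p := p) S.Q q0 (Fk67 S c f0 (fun i => f i.castSucc) k) e)
    (fun e => fib (p := p) S.Q q0 u e) δ H hp hIne
    (fun k e z => norm_Fk_le67 S c f0 (fun i => f i.castSucc) h0.bdd (fun i => (hf _).bdd) k _)
    (fun e z => by
      simp only [fib, hu, hF]
      rw [dual_last67])
    hδ0 hδ2
    (by
      refine ((hpowi n4 (by omega)).trans ?_).trans hH2
      apply Real.rpow_le_rpow_of_exponent_le hD1
      linarith)
    (by
      refine hH1.trans ?_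
      calc S.D ^ (s - τ / 2) ≤ S.D ^ (-(τ / 8)) * S.D := by
            rw [← Real.rpow_add_one' hD0.le (by linarith)]
            apply Real.rpow_le_rpow_of_exponent_le hD1
            linarith
        _ ≤ δ ^ n4 * p := mul_le_mul (hpow n4 (by omega)) hpD hD0.le (by positivity))
    hbox1
    (by
      intro nq hnq q hq hqδ k hk n2 hn2 X2 X' hX2 hX2H hX' hX'X2
      intro a ha b hb r' cc φ hcc hmaj
      have hK' : max n2 (nq + n) + r + 2 ≤ K := by
        have : max n2 (nq + n) ≤ n4 + n := max_le (by omega) (by omega)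
        omega
      have hClK : (max n2 (nq + n) + r + 2) * Cl ≤ Ka := by
        have : (max n2 (nq + n) + r + 2) * Cl ≤ Cl * K := by
          rw [mul_comm]
          exact Nat.mul_le_mul_left _ hK'
        omega
      set K' : ℕ := max n2 (nq + n) + r + 2 with hK'def
      set δ' : ℝ := δ ^ K' with hδ'
      have hδ'0 : 0 < δ' := pow_pos hδ0 _
      have hδ'i : δ'⁻¹ = δ⁻¹ ^ K' := by rw [hδ', inv_pow]
      have hδδ' : δ⁻¹ ≤ δ'⁻¹ := by
        rw [hδ'i]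
        exact le_self_pow₀ hδi (by omega)
      have hδ'C : δ'⁻¹ ^ Cl = δ⁻¹ ^ (Cl * K') := by rw [hδ'i, ← pow_mul, mul_comm]
      have hqq : ((q0 * q : ℕ) : ℝ) ≤ δ⁻¹ ^ (nq + n) := by
        push_cast
        calc (q0 : ℝ) * q ≤ δ⁻¹ ^ n * δ⁻¹ ^ nq := mul_le_mul hq0 hqδ (by positivity) (by positivity)
          _ = δ⁻¹ ^ (nq + n) := by rw [← pow_add, add_comm]
      have hqqp : q0 * q < p := hlt _ (hqq.trans (hpowi _ (by
        have := le_max_right n2 (nq + n)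
        omega)))
      have hX2pos : 1 ≤ X2 := hX'.trans hX'X2
      have hcubeA : ∀ g : ZMod N → ℂ, Adm δ⁻¹ S.Q g →
          Adm δ'⁻¹ S.Q (cubeq (S.Q * (q0 * q)) g a b) := by
        intro g hg'
        refine (Adm.cubq hQ0 hg' (S.Q * (q0 * q)) k a b).mono ?_ hQ0 le_rfl
        rw [hδ'i]
        calc (2 : ℝ) ^ k * δ⁻¹ ≤ δ⁻¹ ^ k * δ⁻¹ :=
              mul_le_mul_of_nonneg_right (pow_le_pow_left₀ (by norm_num) hδi2 _) (by positivity)
          _ = δ⁻¹ ^ (k + 1) := by ring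
          _ ≤ δ⁻¹ ^ K' := pow_le_pow_right₀ hδi (by omega)
      have key := hl S N lam hDl hIl δ'
        ((Real.rpow_le_rpow_of_exponent_le hD1 (by linarith)).trans (hpow K' (by omega)))
        ((pow_le_of_le_one hδ0.le hδle1 (by omega)).trans hδ2) (hlam.trans hδδ') p hp hN (q0 * q)
        (Nat.mul_pos hq01 hq)
        (hqq.trans (by
          rw [hδ'i]
          refine pow_le_pow_right₀ hδi ?_
          have := le_max_right n2 (nq + n)
          omega)) X2 hX2pos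
        (by
          refine le_trans ?_ ((hn4H n4 (by omega)).trans hX2)
          apply Real.rpow_le_rpow_of_exponent_le hD1
          linarith)
        (by
          rw [hδ'C]
          calc (X2 : ℝ) * δ⁻¹ ^ (Cl * K') ≤ S.D ^ (s - τ / 2) * S.D ^ (τ / 8) := by
                refine mul_le_mul ?_ (hpowi _ (by rw [mul_comm]; exact hClK)) (by positivity)
                  (by positivity)
                refine le_trans ?_ hH1
                exact_mod_cast hX2H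
            _ = S.D ^ (s - 3 * τ / 8) := by
                rw [← Real.rpow_add hD0]
                congr 1
                ring
            _ ≤ S.D ^ s := by
                apply Real.rpow_le_rpow_of_exponent_le hD1
                linarith)
        (cubeq (S.Q * (q0 * q)) f0 a b)
        (fun i => cubeq (S.Q * (q0 * q)) (f i.castSucc) a b) (hcubeA f0 h0)
        (fun i => hcubeA _ (hf _)) r' (ext15 cc) (ext15 φ)
        (by
          intro e j
          unfold ext15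
          split_ifs
          · exact hcc _ _
          · simp)
        (by
          intro e j hej
          rw [hδ'C]
          by_cases he : e < S.Q
          · have e1 : ext15 cc e j = cc ⟨e, he⟩ j := by
              unfold ext15
              rw [dif_pos he]
            have e2 : ext15 φ e j = φ ⟨e, he⟩ j := by
              unfold ext15
              rw [dif_pos he]
            rw [e1] at hej
            rw [e2]
            exact hmaj ⟨e, he⟩ j hej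
          · exfalso
            apply hej
            unfold ext15
            rw [dif_neg he])
      rw [← form_fib15 S c f0 (fun i => f i.castSucc) hp hN (Nat.mul_pos hq01 hq) hqqp a b r'
        cc φ] at key
      have e3 : ∀ (n : ℕ) (e : Fin S.Q), (fun z : ZMod p => fib S.Q q0
          (Fk67 S c f0 (fun i => f i.castSucc) n) e ((q : ZMod p) * z)) =
          fib S.Q (q0 * q) (Fk67 S c f0 (fun i => f i.castSucc) n) e := by
        intro n e
        funext z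
        exact fib_fib hN _ _ _
      simp only [e3]
      refine lt_of_lt_of_le key ?_
      exact pow_le_pow_of_le_one hδ0.le hδle1 (by
        have := le_max_left n2 (nq + n)
        omega))
  refine ⟨q0 * q1, Nat.mul_pos hq01 hq11, ?_, ?_⟩
  · push_cast
    calc (q0 : ℝ) * q1 ≤ δ⁻¹ ^ n * δ⁻¹ ^ n4 := mul_le_mul hq0 hq1 (by positivity) (by positivity)
      _ = δ⁻¹ ^ (n4 + n) := by rw [← pow_add, add_comm]
  · intro L hL hLD
    have e1 := hfin L hL (by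
      refine hLD.trans ?_
      refine le_trans ?_ (hn4H n4 (by omega))
      apply Real.rpow_le_rpow_of_exponent_le hD1
      linarith)
    have hqqp : q0 * q1 < p := hlt _ (by
      push_cast
      calc (q0 : ℝ) * q1 ≤ δ⁻¹ ^ n * δ⁻¹ ^ n4 :=
            mul_le_mul hq0 hq1 (by positivity) (by positivity)
        _ = δ⁻¹ ^ (n + n4) := by rw [← pow_add]
        _ ≤ S.D ^ (τ / 8) := hpowi _ (by omega))
    have e4 : ∀ e : Fin S.Q, (fun z : ZMod p => fib S.Q q0 u e ((q1 : ZMod p) * z)) =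
        fib S.Q (q0 * q1) u e := by
      intro e
      funext z
      exact fib_fib hN _ _ _
    simp only [e4] at e1
    rw [← nrm_Aq_conj15, nrm_fib hp hN (Nat.mul_pos hq01 hq11) hqqp]
    refine le_trans ?_ e1
    exact pow_le_pow_of_le_one hδ0.le hδle1 (by omega)

end

end Pool.Agent.Helper67.NX2
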