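import Pool.Agent.Helper15.NX2.TopArithOf
import Pool.Agent.Helper5.NX2.Ratl

/-!
# Project NX2: the top function (A32)
-/

set_option autoImplicit false

open Finset
open scoped BigOperators ComplexConjugate

namespace Pool.Agent.Helper67.NX2

open Pool.Agent.Helper57.NX

noncomputable section

theorem top_arith (hES : ES0) (m : ℕ) (c : Fin (m + 1) → ℝ) (hc : Ex c) (d : ℕ)
    (hd : c (Fin.last m) = d)
    (hJ : ∀ ε : ℝ, 0 < ε → UsJ m c 0 ε (univ.erase (Fin.last m))) :
    ∀ ε : ℝ, 0 < ε → UsJ m c 0 ε univ :=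
  top_arith_of15 m c (fun a ε hε => ratl hES c hc.strictMono
    (fun i => by linarith [hc.two i]) a ε hε) hc d hd hJ

end

end Pool.Agent.Helper67.NX2
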