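import Pool.Agent.Helper55.NX2.AqBasic
import Pool.Agent.Helper40.NX2.IGBasic
import Pool.Agent.Helper87.NX2.Dil
import Pool.Agent.Helper81.NX2.CharRep
import Pool.Agent.Helper61.NX.DsOfUs

/-!
# Project NX2: the top function (A32), from the statement on phases with large window sums
-/

set_option autoImplicit false

open Finset
open scoped BigOperators ComplexConjugate

namespace Pool.Agent.Helper67.NX2

open Pool.Agent.Helper57.NX

noncomputable section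

/-- the statement on phases with large window sums -/
def RatlSt15 {m : ℕ} (c : Fin m → ℝ) : Prop :=
    ∀ (a ε : ℝ), 0 < ε →
    ∃ x0 : ℝ, 0 < x0 ∧ ∃ C : ℕ, ∃ σ : ℝ, 0 < σ ∧ ∃ D0 : ℝ, ∀ D : ℝ, D0 ≤ D →
    ∀ ρ : ℝ, 0 ≤ ρ → ρ ≤ 1 → ∀ lam : ℕ, 1 ≤ lam → (∃ r : ℕ, ρ * lam = r) →
    ∀ δ : ℝ, D ^ (-σ) ≤ δ → δ ≤ 1 / 2 → (lam : ℝ) ≤ δ⁻¹ →
    ∀ v : Fin m → ℝ, (∀ i, |v i| ≤ D ^ a) →
    ∀ q k K : ℕ, 1 ≤ q → (q : ℝ) ≤ δ⁻¹ → D ≤ k → (k : ℝ) ≤ 3 * D → D ^ (1 - x0) ≤ K →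
    (q : ℝ) * K ≤ D →
    δ ≤ ‖𝔼 j ∈ range K, e (∑ i, v i * ((((k + q * j : ℕ) : ℝ) + ρ) / D) ^ (c i))‖ →
    (∀ i, ¬ IsN (c i) → |v i| ≤ D ^ ε) ∧
    ∃ q' : ℕ, 1 ≤ q' ∧ (q' : ℝ) ≤ δ⁻¹ ^ C ∧ ∀ (i : Fin m) (d : ℕ), c i = d →
      dint (q' * (v i / (lam * D) ^ d)) ≤ D ^ (ε - d)

section Four
variable {N : ℕ} [NeZero N]

private theorem std15 (t : ℤ) : ZMod.stdAddChar (t : ZMod N) = e ((t : ℝ) / N) := by
  rw [ZMod.stdAddChar_coe, e]
  congr 1
  push_cast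
  ring

private theorem cz_eq15 (b : ℤ) (x : ZMod N) : e ((b : ℝ) / N * x.val) = ch (b : ZMod N) x := by
  have h : (b : ZMod N) * x = ((b * (x.val : ℤ) : ℤ) : ZMod N) := by
    push_cast
    rw [ZMod.natCast_val, ZMod.cast_id', id]
  rw [ch, h, std15]
  congr 1
  push_cast
  ring

private theorem ch_int15 (b a : ℤ) : ch (b : ZMod N) (a : ZMod N) = e ((b : ℝ) / N * a) := by
  rw [ch, ← Int.cast_mul, std15]
  congr 1
  push_cast
  ring

private theorem four_window15 (f : ZMod N → ℂ) (Ω : Finset ℕ) (w : ℕ → ℂ) (s : ℕ → ℤ) :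
    𝔼 x, ‖𝔼 j ∈ Ω, w j * f (x + (s j : ZMod N))‖ ^ 2 =
      ∑ b, ‖fc f b‖ ^ 2 * ‖𝔼 j ∈ Ω, w j * e (fr b * s j)‖ ^ 2 := by
  have h1 : ∀ x, 𝔼 j ∈ Ω, w j * f (x + (s j : ZMod N)) =
      ∑ b, (fc f b * 𝔼 j ∈ Ω, w j * e (fr b * s j)) * ch b x := by
    intro x
    have h2 : ∀ j, w j * f (x + (s j : ZMod N)) =
        ∑ b, fc f b * (w j * e (fr b * s j)) * ch b x := by
      intro j
      rw [four_inv f, Finset.mul_sum]
      refine Finset.sum_congr rfl fun b _ => ?_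
      rw [ch_add, ch_int]
      ring
    simp_rw [h2]
    rw [Finset.expect_sum_comm]
    refine Finset.sum_congr rfl fun b _ => ?_
    rw [Finset.mul_expect, Finset.expect_mul]
  simp_rw [h1]
  rw [parseval]
  refine Finset.sum_congr rfl fun b _ => ?_
  rw [norm_mul, mul_pow]

private theorem four_Aq15 (f : ZMod N → ℂ) (st L : ℕ) :
    𝔼 x, ‖Aq st L f x‖ ^ 2 =
      ∑ b, ‖fc f b‖ ^ 2 * ‖𝔼 a ∈ range L, e (fr b * ((st * a : ℕ) : ℝ))‖ ^ 2 := by
  have h := four_window15 f (range L) (fun _ => 1) (fun a => ((st * a : ℕ) : ℤ))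
  simp only [one_mul, Int.cast_natCast] at h
  exact h

private theorem nrm_Aq_ge15 {f : ZMod N → ℂ} (hf : ∀ x, ‖f x‖ ≤ 1) (st L : ℕ)
    (B : Finset (ZMod N)) (τ : ℝ) (hB : τ ≤ ∑ b ∈ B, ‖fc f b‖ ^ 2)
    (hb : ∀ b ∈ B, 1 / 2 ≤ ‖𝔼 a ∈ range L, e (fr b * ((st * a : ℕ) : ℝ))‖) :
    τ / 4 ≤ nrm (Aq st L f) := by
  have h1 : 𝔼 x, ‖Aq st L f x‖ ^ 2 ≤ nrm (Aq st L f) := by
    refine Finset.expect_le_expect fun x _ => ?_
    exact pow_le_of_le_one (norm_nonneg _) (norm_Aq_le hf st L x) two_ne_zero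
  refine le_trans ?_ h1
  rw [four_Aq15]
  calc τ / 4 ≤ ∑ b ∈ B, ‖fc f b‖ ^ 2 * (1 / 4) := by
        rw [← Finset.sum_mul]
        linarith
    _ ≤ ∑ b ∈ B, ‖fc f b‖ ^ 2 * ‖𝔼 a ∈ range L, e (fr b * ((st * a : ℕ) : ℝ))‖ ^ 2 := by
        refine Finset.sum_le_sum fun b hbB => mul_le_mul_of_nonneg_left ?_ (sq_nonneg _)
        nlinarith [hb b hbB, norm_nonneg (𝔼 a ∈ range L, e (fr b * ((st * a : ℕ) : ℝ)))]
    _ ≤ _ := Finset.sum_le_sum_of_subset_of_nonneg (Finset.subset_univ _)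
        fun b _ _ => by positivity

private theorem pigeon15 {f : ZMod N → ℂ} (hf : ∀ x, ‖f x‖ ≤ 1) (W : ZMod N → ℝ)
    (hW : ∀ b, W b ≤ 1) (ξ : ℝ) (hξ : 0 < ξ)
    (h : 2 * ξ ≤ ∑ b, ‖fc f b‖ ^ 2 * W b) (R : ℕ) (V : ℕ → ZMod N → Prop)
    (hV : ∀ b, ξ ≤ W b → ∃ q, 1 ≤ q ∧ q ≤ R ∧ V q b) :
    ∃ q, 1 ≤ q ∧ q ≤ R ∧ (open scoped Classical in
      ξ / R ≤ ∑ b ∈ univ.filter (V q), ‖fc f b‖ ^ 2) := by
  classical
  have h1 : ξ ≤ ∑ b ∈ univ.filter (fun b => ξ ≤ W b), ‖fc f b‖ ^ 2 := by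
    have h2 : ∀ b, ‖fc f b‖ ^ 2 * W b ≤
        (if ξ ≤ W b then ‖fc f b‖ ^ 2 else 0) + ‖fc f b‖ ^ 2 * ξ := by
      intro b
      split_ifs with hb
      · have := mul_le_mul_of_nonneg_left (hW b) (sq_nonneg ‖fc f b‖)
        have h3 : 0 ≤ ‖fc f b‖ ^ 2 * ξ := by positivity
        linarith
      · push Not at hb
        have := mul_le_mul_of_nonneg_left hb.le (sq_nonneg ‖fc f b‖)
        linarith
    have h3 := Finset.sum_le_sum fun b (_ : b ∈ (univ : Finset (ZMod N))) => h2 b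
    rw [Finset.sum_add_distrib, ← Finset.sum_mul, ← Finset.sum_filter] at h3
    have h4 : (∑ b, ‖fc f b‖ ^ 2) * ξ ≤ 1 * ξ :=
      mul_le_mul_of_nonneg_right (sum_fc_le hf) hξ.le
    linarith
  by_contra hcon
  push Not at hcon
  have h5 : ∑ b ∈ univ.filter (fun b => ξ ≤ W b), ‖fc f b‖ ^ 2 ≤
      ∑ q ∈ Icc 1 R, ∑ b ∈ univ.filter (V q), ‖fc f b‖ ^ 2 := by
    simp_rw [Finset.sum_filter]
    rw [Finset.sum_comm]
    refine Finset.sum_le_sum fun b _ => ?_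
    split_ifs with hb
    · obtain ⟨q, hq1, hqR, hqV⟩ := hV b hb
      refine le_trans (le_of_eq ?_) (Finset.single_le_sum (f := fun q =>
        if V q b then ‖fc f b‖ ^ 2 else 0) (fun q _ => ?_) (Finset.mem_Icc.2 ⟨hq1, hqR⟩))
      · simp only [if_pos hqV]
      · positivity
    · exact Finset.sum_nonneg fun q _ => by positivity
  have hR : 1 ≤ R := by
    by_contra hR
    have hR0 : R = 0 := by omega
    subst hR0
    have h6 : ∑ b ∈ univ.filter (fun b => ξ ≤ W b), ‖fc f b‖ ^ 2 = 0 := by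
      refine Finset.sum_eq_zero fun b hb => ?_
      obtain ⟨q, hq1, hqR, -⟩ := hV b (Finset.mem_filter.1 hb).2
      omega
    linarith
  have hR0 : (0 : ℝ) < R := by exact_mod_cast hR
  have h6 : ∑ q ∈ Icc 1 R, ∑ b ∈ univ.filter (V q), ‖fc f b‖ ^ 2 < ∑ q ∈ Icc 1 R, ξ / R := by
    refine Finset.sum_lt_sum_of_nonempty ⟨1, Finset.mem_Icc.2 ⟨le_rfl, hR⟩⟩ fun q hq => ?_
    exact hcon q (Finset.mem_Icc.1 hq).1 (Finset.mem_Icc.1 hq).2
  rw [Finset.sum_const, Nat.card_Icc, nsmul_eq_mul] at h6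
  have h7 : ((R + 1 - 1 : ℕ) : ℝ) * (ξ / R) = ξ := by
    rw [Nat.add_sub_cancel]
    field_simp
  linarith

end Four

section Win
variable {m N : ℕ} [NeZero N]

private theorem window15 (S : Sys (m + 1)) (c : Fin (m + 1) → ℝ) {f0 : ZMod N → ℂ}
    (hf0 : ∀ x, ‖f0 x‖ ≤ 1) (f : Fin (m + 1) → ZMod N → ℂ) (b : Fin (m + 1) → ℤ)
    (cc : Fin (m + 1) → ZMod N → ℂ) (hcc : ∀ (i : Fin m) x, ‖cc i.castSucc x‖ ≤ 1)
    (hfm : ∀ x, ‖f (Fin.last m) x‖ ≤ 1) (Ω : Finset ℕ) (κ : ℕ → ℕ) (k0 : ℕ) (E : ℝ) (hE0 : 0 ≤ E)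
    (hE : ∀ (i : Fin m), ∀ j ∈ Ω, ∀ x, ‖cc i.castSucc (x + (S.a c i.castSucc (κ j) : ZMod N)) -
      cc i.castSucc (x + (S.a c i.castSucc k0 : ZMod N))‖ ≤ E) :
    ‖𝔼 j ∈ Ω, 𝔼 x, f0 x * ∏ i, (if i ∈ univ.erase (Fin.last m) then
        e ((b i : ℝ) / N * (x + (S.a c i (κ j) : ZMod N)).val) * cc i (x + (S.a c i (κ j) : ZMod N))
        else f i (x + (S.a c i (κ j) : ZMod N)))‖ ≤
      m * E + 𝔼 x, ‖𝔼 j ∈ Ω, e (∑ i : Fin m, (b i.castSucc : ℝ) / N * (S.a c i.castSucc (κ j))) *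
        f (Fin.last m) (x + (S.a c (Fin.last m) (κ j) : ZMod N))‖ := by
  set w : ℕ → ℂ := fun j =>
    e (∑ i : Fin m, (b i.castSucc : ℝ) / N * (S.a c i.castSucc (κ j))) with hw
  set F : ZMod N → ℂ := fun x => f0 x * (∏ i : Fin m, ch (b i.castSucc : ZMod N) x) *
    ∏ i : Fin m, cc i.castSucc (x + (S.a c i.castSucc k0 : ZMod N)) with hF
  have hF1 : ∀ x, ‖F x‖ ≤ 1 := by
    intro x
    rw [hF]
    simp only [norm_mul, norm_prod]
    refine mul_le_one₀ (mul_le_one₀ (hf0 x) (prod_nonneg fun _ _ => norm_nonneg _) ?_)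
      (prod_nonneg fun _ _ => norm_nonneg _) ?_
    · exact prod_le_one (fun _ _ => norm_nonneg _) fun i _ => (norm_ch _ _).le
    · exact prod_le_one (fun _ _ => norm_nonneg _) fun i _ => hcc i _
  have h1 : ∀ j ∈ Ω, ∀ x, ‖f0 x * ∏ i, (if i ∈ univ.erase (Fin.last m) then
        e ((b i : ℝ) / N * (x + (S.a c i (κ j) : ZMod N)).val) * cc i (x + (S.a c i (κ j) : ZMod N))
        else f i (x + (S.a c i (κ j) : ZMod N))) -
      F x * (w j * f (Fin.last m) (x + (S.a c (Fin.last m) (κ j) : ZMod N)))‖ ≤ m * E := by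
    intro j hj x
    have h2 : f0 x * ∏ i, (if i ∈ univ.erase (Fin.last m) then
        e ((b i : ℝ) / N * (x + (S.a c i (κ j) : ZMod N)).val) * cc i (x + (S.a c i (κ j) : ZMod N))
        else f i (x + (S.a c i (κ j) : ZMod N))) =
        f0 x * (∏ i : Fin m, ch (b i.castSucc : ZMod N) x) * (w j *
          f (Fin.last m) (x + (S.a c (Fin.last m) (κ j) : ZMod N))) *
          ∏ i : Fin m, cc i.castSucc (x + (S.a c i.castSucc (κ j) : ZMod N)) := by
      rw [Fin.prod_univ_castSucc, if_neg (by simp)]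
      have h3 : ∀ i : Fin m, (if i.castSucc ∈ univ.erase (Fin.last m) then
          e ((b i.castSucc : ℝ) / N * (x + (S.a c i.castSucc (κ j) : ZMod N)).val) *
            cc i.castSucc (x + (S.a c i.castSucc (κ j) : ZMod N))
          else f i.castSucc (x + (S.a c i.castSucc (κ j) : ZMod N))) =
          ch (b i.castSucc : ZMod N) x * e ((b i.castSucc : ℝ) / N * (S.a c i.castSucc (κ j))) *
            cc i.castSucc (x + (S.a c i.castSucc (κ j) : ZMod N)) := by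
        intro i
        rw [if_pos (by simp [(Fin.castSucc_lt_last i).ne]), cz_eq15, ch_add, ch_int15]
      simp_rw [h3]
      rw [prod_mul_distrib, prod_mul_distrib, ← e_sum]
      simp only [hw]
      ring
    rw [h2]
    have h4 : f0 x * (∏ i : Fin m, ch (b i.castSucc : ZMod N) x) * (w j *
          f (Fin.last m) (x + (S.a c (Fin.last m) (κ j) : ZMod N))) *
          ∏ i : Fin m, cc i.castSucc (x + (S.a c i.castSucc (κ j) : ZMod N)) -
        F x * (w j * f (Fin.last m) (x + (S.a c (Fin.last m) (κ j) : ZMod N))) =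
        f0 x * (∏ i : Fin m, ch (b i.castSucc : ZMod N) x) * (w j *
          f (Fin.last m) (x + (S.a c (Fin.last m) (κ j) : ZMod N))) *
          (∏ i : Fin m, cc i.castSucc (x + (S.a c i.castSucc (κ j) : ZMod N)) -
            ∏ i : Fin m, cc i.castSucc (x + (S.a c i.castSucc k0 : ZMod N))) := by
      simp only [hF]
      ring
    rw [h4, norm_mul]
    have h5 : ‖f0 x * (∏ i : Fin m, ch (b i.castSucc : ZMod N) x) * (w j *
          f (Fin.last m) (x + (S.a c (Fin.last m) (κ j) : ZMod N)))‖ ≤ 1 := by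
      simp only [norm_mul, norm_prod, norm_ch, prod_const_one, mul_one, hw, norm_e, one_mul]
      exact mul_le_one₀ (hf0 x) (norm_nonneg _) (hfm _)
    refine (mul_le_of_le_one_left (norm_nonneg _) h5).trans ?_
    refine (prod_sub_prod univ (fun i _ => hcc i _) (fun i _ => hcc i _)).trans ?_
    refine (sum_le_sum fun i _ => hE i j hj x).trans (le_of_eq ?_)
    rw [sum_const, card_univ, Fintype.card_fin, nsmul_eq_mul]
  have h6 : ‖𝔼 j ∈ Ω, 𝔼 x, f0 x * ∏ i, (if i ∈ univ.erase (Fin.last m) then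
        e ((b i : ℝ) / N * (x + (S.a c i (κ j) : ZMod N)).val) * cc i (x + (S.a c i (κ j) : ZMod N))
        else f i (x + (S.a c i (κ j) : ZMod N))) -
      𝔼 j ∈ Ω, 𝔼 x, F x * (w j * f (Fin.last m) (x + (S.a c (Fin.last m) (κ j) : ZMod N)))‖ ≤
      m * E := by
    rw [← expect_sub_distrib]
    refine norm_expect_le_of5 _ _ (by positivity) fun j hj => ?_
    rw [← expect_sub_distrib]
    exact norm_expect_le_of5 _ _ (by positivity) fun x _ => h1 j hj x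
  have h7 : 𝔼 j ∈ Ω, 𝔼 x, F x * (w j * f (Fin.last m) (x + (S.a c (Fin.last m) (κ j) : ZMod N))) =
      𝔼 x, F x * 𝔼 j ∈ Ω, w j * f (Fin.last m) (x + (S.a c (Fin.last m) (κ j) : ZMod N)) := by
    rw [expect_comm]
    refine expect_congr rfl fun x _ => ?_
    rw [mul_expect]
  have h8 : ‖𝔼 x, F x * 𝔼 j ∈ Ω, w j *
      f (Fin.last m) (x + (S.a c (Fin.last m) (κ j) : ZMod N))‖ ≤
      𝔼 x, ‖𝔼 j ∈ Ω, w j * f (Fin.last m) (x + (S.a c (Fin.last m) (κ j) : ZMod N))‖ := by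
    refine (RCLike.norm_expect_le (K := ℂ)).trans (expect_le_expect fun x _ => ?_)
    rw [norm_mul]
    exact mul_le_of_le_one_left (norm_nonneg _) (hF1 x)
  have h9 := norm_sub_norm_le (𝔼 j ∈ Ω, 𝔼 x, f0 x * ∏ i, (if i ∈ univ.erase (Fin.last m) then
        e ((b i : ℝ) / N * (x + (S.a c i (κ j) : ZMod N)).val) * cc i (x + (S.a c i (κ j) : ZMod N))
        else f i (x + (S.a c i (κ j) : ZMod N))))
      (𝔼 j ∈ Ω, 𝔼 x, F x * (w j * f (Fin.last m) (x + (S.a c (Fin.last m) (κ j) : ZMod N))))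
  rw [h7] at h6 h9
  linarith

end Win

section Aux
variable {m N : ℕ} [NeZero N] {S : Sys (m + 1)} {c : Fin (m + 1) → ℝ} {x : ℝ} {lam : ℕ}

private theorem step_div15 (hI : IG S c N x lam) (hD : 0 < S.D) (q k0 j : ℕ) (i : Fin (m + 1)) :
    ∃ t : ℤ, S.a c i (k0 + q * j) = S.a c i k0 + (stp S.Q q (c i) : ℤ) * t := by
  by_cases h : IsN (c i)
  · have h' := h
    obtain ⟨n, hn⟩ := h'
    obtain ⟨r, hr⟩ := hI.rho
    rw [a_nat hI hD hr i n hn, a_nat hI hD hr i n hn, stp_nat _ _ h]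
    have hdvd : (q : ℤ) ∣ ((lam * (k0 + q * j) + r : ℕ) : ℤ) ^ n - ((lam * k0 + r : ℕ) : ℤ) ^ n := by
      have h1 : (q : ℤ) ∣ ((lam * (k0 + q * j) + r : ℕ) : ℤ) - ((lam * k0 + r : ℕ) : ℤ) :=
        ⟨lam * j, by push_cast; ring⟩
      exact h1.trans (sub_dvd_pow_sub_pow _ _ n)
    obtain ⟨t, ht⟩ := hdvd
    refine ⟨t, ?_⟩
    push_cast at ht ⊢
    linear_combination (S.Q : ℤ) * ht
  · rw [stp_not _ _ h]
    exact ⟨S.a c i (k0 + q * j) - S.a c i k0, by push_cast; ring⟩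

private theorem a_last15 (hI : IG S c N x lam) (hD : 0 < S.D) (d : ℕ)
    (hd : c (Fin.last m) = d) (k : ℕ) :
    (S.a c (Fin.last m) k : ℝ) = S.P (Fin.last m) * S.t k ^ (c (Fin.last m)) := by
  obtain ⟨r, hr⟩ := hI.rho
  rw [a_nat hI hD hr _ d hd, hI.Pint _ d hd, hd, Real.rpow_natCast, mul_assoc, ← mul_pow]
  have h1 : (lam : ℝ) * S.D * S.t k = lam * k + r := by
    unfold Sys.t
    rw [← hr]
    field_simp
  rw [h1]
  push_cast
  ring

private theorem large15 {A p D : ℝ} (hA : 0 ≤ A) (hp : 0 < p) (h : A ^ (1 / p) ≤ D) :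
    A ≤ D ^ p := by
  calc A = (A ^ (1 / p)) ^ p := by
        rw [← Real.rpow_mul hA, one_div, inv_mul_cancel₀ hp.ne', Real.rpow_one]
    _ ≤ D ^ p := Real.rpow_le_rpow (Real.rpow_nonneg hA _) h hp.le

private theorem pow_ge15' {D δ σ τ : ℝ} {j K : ℕ} (hD : 1 ≤ D) (hσ0 : 0 ≤ σ) (hσ : σ * K ≤ τ)
    (h : D ^ (-σ) ≤ δ) (hj : j ≤ K) : D ^ (-τ) ≤ δ ^ j := by
  have h0 : (0 : ℝ) < D := by linarith
  calc D ^ (-τ) ≤ D ^ (-σ * j) := by
        apply Real.rpow_le_rpow_of_exponent_le hD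
        have h1 : σ * j ≤ σ * K := mul_le_mul_of_nonneg_left (by exact_mod_cast hj) hσ0
        linarith
    _ = (D ^ (-σ)) ^ j := by rw [Real.rpow_mul h0.le, Real.rpow_natCast]
    _ ≤ δ ^ j := pow_le_pow_left₀ (Real.rpow_nonneg h0.le _) h j

private theorem inv_pow_le15' {D δ τ : ℝ} {j : ℕ} (hD : 0 < D) (h : D ^ (-τ) ≤ δ ^ j) :
    δ⁻¹ ^ j ≤ D ^ τ := by
  have h1 : 0 < D ^ (-τ) := Real.rpow_pos_of_pos hD _
  rw [inv_pow]
  calc (δ ^ j)⁻¹ ≤ (D ^ (-τ))⁻¹ := inv_anti₀ h1 h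
    _ = D ^ τ := by rw [Real.rpow_neg hD.le, inv_inv]

private theorem norm_e_sub_one_le15 (y : ℝ) : ‖e y - 1‖ ≤ 2 * Real.pi * dint y := by
  have h1 : e y = e (y - round y) := by
    have h2 : y = (y - round y) + (round y : ℤ) := by ring
    conv_lhs => rw [h2]
    rw [e_add, e_int, mul_one]
  rw [h1, ← e_zero]
  refine (norm_e_sub_e_le _ _).trans (le_of_eq ?_)
  rw [sub_zero, dint]

private theorem half_le_norm15 (β V : ℝ) (L : ℕ) (hL : 1 ≤ L) (h : dint β ≤ V)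
    (hLV : 2 * Real.pi * (L * V) ≤ 1 / 2) : 1 / 2 ≤ ‖𝔼 a ∈ range L, e (β * a)‖ := by
  have h1 : ‖𝔼 a ∈ range L, e (β * a) - 1‖ ≤ 1 / 2 := by
    have h2 : 𝔼 a ∈ range L, e (β * a) - 1 = 𝔼 a ∈ range L, (e (β * a) - 1) := by
      rw [expect_sub_distrib, expect_const (nonempty_range_iff.2 (by omega))]
    rw [h2]
    refine norm_expect_le_of5 _ _ (by norm_num) fun a ha => ?_
    have ha' : (a : ℝ) ≤ L := by exact_mod_cast (mem_range.1 ha).le
    refine (norm_e_sub_one_le15 _).trans ?_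
    refine le_trans ?_ hLV
    have h3 : dint (β * a) ≤ a * dint β := by
      rw [mul_comm]
      exact dint_mul_le a β
    have h4 : (a : ℝ) * dint β ≤ L * V :=
      mul_le_mul ha' h (dint_nonneg _) (Nat.cast_nonneg _)
    exact mul_le_mul_of_nonneg_left (h3.trans h4) (by positivity)
  have h5 := norm_sub_norm_le (1 : ℂ) (1 - 𝔼 a ∈ range L, e (β * a))
  rw [norm_one, sub_sub_cancel] at h5
  rw [norm_sub_rev] at h1
  linarith

private theorem expect_Ico15 (u J : ℕ) (F : ℕ → ℂ) :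
    𝔼 j ∈ Ico u (u + J), F j = 𝔼 j ∈ range J, F (u + j) := by
  rw [expect_eq_sum_div_card, expect_eq_sum_div_card, sum_Ico_eq_sum_range, Nat.card_Ico,
    card_range, Nat.add_sub_cancel_left]

end Aux

/-- the window sums of the phases after removing the integer parts -/
private theorem phase15 {m N : ℕ} [NeZero N] {S : Sys (m + 1)} {c : Fin (m + 1) → ℝ} {x : ℝ}
    {lam : ℕ} (hI : IG S c N x lam) (hD : 0 < S.D) (d : ℕ) (hd : c (Fin.last m) = d)
    (θ : Fin m → ℝ) (β : ℝ) (k : ℕ) :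
    ‖e (∑ i : Fin m, θ i * (S.a c i.castSucc k)) * e (β * (S.a c (Fin.last m) k)) -
      e (∑ i : Fin (m + 1), (Fin.snoc (α := fun _ => ℝ) (fun i : Fin m => θ i * S.P i.castSucc)
        (β * S.P (Fin.last m)) : Fin (m + 1) → ℝ) i * (((k : ℝ) + S.ρ) / S.D) ^ (c i))‖ ≤
      2 * Real.pi * ∑ i : Fin m, |θ i| := by
  rw [← e_add]
  refine (norm_e_sub_e_le _ _).trans ?_
  refine mul_le_mul_of_nonneg_left ?_ (by positivity)
  rw [Fin.sum_univ_castSucc]
  simp only [Fin.snoc_castSucc, Fin.snoc_last]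
  rw [a_last15 hI hD d hd k]
  have h1 : ∑ i : Fin m, θ i * (S.a c i.castSucc k : ℝ) +
      β * (S.P (Fin.last m) * S.t k ^ c (Fin.last m)) -
      (∑ i : Fin m, θ i * S.P i.castSucc * ((k + S.ρ) / S.D) ^ c i.castSucc +
        β * S.P (Fin.last m) * ((k + S.ρ) / S.D) ^ c (Fin.last m)) =
      ∑ i : Fin m, θ i * ((S.a c i.castSucc k : ℝ) - S.P i.castSucc * (S.t k) ^ c i.castSucc) := by
    simp only [mul_sub, Finset.sum_sub_distrib, Sys.t]
    have h2 : ∀ i : Fin m, θ i * S.P i.castSucc * ((k + S.ρ) / S.D) ^ c i.castSucc =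
        θ i * (S.P i.castSucc * ((k + S.ρ) / S.D) ^ c i.castSucc) := fun i => by ring
    simp_rw [h2]
    ring
  rw [h1]
  refine (Finset.abs_sum_le_sum_abs _ _).trans (Finset.sum_le_sum fun i _ => ?_)
  rw [abs_mul]
  refine mul_le_of_le_one_right (abs_nonneg _) ?_
  unfold Sys.a
  have h3 := Int.floor_le (S.P i.castSucc * S.t k ^ c i.castSucc)
  have h4 := Int.lt_floor_add_one (S.P i.castSucc * S.t k ^ c i.castSucc)
  rw [abs_le]
  constructor <;> linarith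

set_option maxHeartbeats 2000000 in
private theorem top_last15 (m : ℕ) (c : Fin (m + 1) → ℝ) (hR : RatlSt15 c) (hc : Ex c) (d : ℕ)
    (hd : c (Fin.last m) = d)
    (hJ : ∀ ε : ℝ, 0 < ε → UsJ m c 0 ε (univ.erase (Fin.last m))) (ε : ℝ) (hε : 0 < ε) :
    ∃ x0 : ℝ, 0 < x0 ∧ ∃ C : ℕ, ∃ σ : ℝ, 0 < σ ∧ ∃ D0 : ℝ,
    ∀ (S : Sys (m + 1)) (N : ℕ) [NeZero N] (lam : ℕ), D0 ≤ S.D → IG S c N x0 lam →
    ∀ δ : ℝ, S.D ^ (-σ) ≤ δ → δ ≤ 1 / 2 → (lam : ℝ) ≤ δ⁻¹ →
    ∀ (f0 : ZMod N → ℂ) (f : Fin (m + 1) → ZMod N → ℂ),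
    Adm δ⁻¹ S.Q f0 → (∀ i, Adm δ⁻¹ S.Q (f i)) → δ ≤ ‖form S c 1 f0 f‖ →
    ∃ q : ℕ, 1 ≤ q ∧ (q : ℝ) ≤ δ⁻¹ ^ C ∧ ∀ L : ℕ, 1 ≤ L →
      (L : ℝ) * ((S.Q * q : ℕ) : ℝ) ≤ S.P (Fin.last m) * S.D ^ (-ε) →
      δ ^ C ≤ nrm (Aq (S.Q * q) L (f (Fin.last m))) := by
  have hc0 : ∀ i, 0 < c i := fun i => by linarith [hc.two i]
  have hcm : ∀ i, c i ≤ c (Fin.last m) := fun i => hc.strictMono.monotone (Fin.le_last i)
  obtain ⟨xr, hxr, Cr, σr, hσr, Dr, hr⟩ := hR (c (Fin.last m) + 5) (ε / 4) (by linarith)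
  set w : ℝ := min xr (1 / 2) with hw
  have hw0 : 0 < w := lt_min hxr (by norm_num)
  have hwr : w ≤ xr := min_le_left _ _
  have hw2 : w ≤ 1 / 2 := min_le_right _ _
  clear_value w
  obtain ⟨xc, hxc, Cc, σc, hσc, Dc, hcr⟩ := char_rep m c hc 0 le_rfl (hc0 _)
    (univ.erase (Fin.last m)) hJ (w / 4) (by linarith)
  set c2 : ℕ := 2 * Cc + 6 with hc2
  set C : ℕ := 2 * Cc + 7 + c2 * Cr with hC
  set Ka : ℕ := C + 3 * Cc + c2 + 1 with hKa
  set τ : ℝ := min σc (min σr (w / 2)) with hτ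
  have hτ0 : 0 < τ := lt_min hσc (lt_min hσr (by linarith))
  have hτc : τ ≤ σc := min_le_left _ _
  have hτr : τ ≤ σr := (min_le_right _ _).trans (min_le_left _ _)
  have hτw : τ ≤ w / 2 := (min_le_right _ _).trans (min_le_right _ _)
  clear_value τ
  have hKa1 : (1 : ℝ) ≤ (Ka : ℝ) := by
    have : 1 ≤ Ka := by omega
    exact_mod_cast this
  have hσ0 : 0 < τ / (8 * Ka) := by positivity
  have hMc0 : 0 ≤ Mc c := Finset.sum_nonneg fun i _ => mul_nonneg (hc0 i).le (by positivity)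
  set A1 : ℝ := 4 * (m + 1) * (2 * Mc c + 1) with hA1
  have hA10 : 0 ≤ A1 := by positivity
  clear_value A1
  refine ⟨min xc (min (w / 8) (ε / 8)), lt_min hxc (lt_min (by linarith) (by linarith)), C,
    τ / (8 * Ka), hσ0, max (max Dr Dc) (max (max ((8 : ℝ) ^ (1 / (w / 2))) (A1 ^ (1 / (w / 4))))
      (max (512 * (m + 1)) ((14 : ℝ) ^ (1 / (ε / 2))))), ?_⟩
  intro S N _ lam hSD hI δ hδ1 hδ2 hlam f0 f h0 hf hform
  have hDr : Dr ≤ S.D := (le_max_left _ _).trans ((le_max_left _ _).trans hSD)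
  have hDc : Dc ≤ S.D := (le_max_right _ _).trans ((le_max_left _ _).trans hSD)
  have hD8 : (8 : ℝ) ≤ S.D ^ (w / 2) := large15 (by norm_num) (by linarith)
    ((le_max_left _ _).trans ((le_max_left _ _).trans ((le_max_right _ _).trans hSD)))
  have hDA : A1 ≤ S.D ^ (w / 4) := large15 hA10 (by linarith)
    ((le_max_right _ _).trans ((le_max_left _ _).trans ((le_max_right _ _).trans hSD)))
  have hDm : 512 * ((m : ℝ) + 1) ≤ S.D :=
    (le_max_left _ _).trans ((le_max_right _ _).trans ((le_max_right _ _).trans hSD))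
  have hD14 : (14 : ℝ) ≤ S.D ^ (ε / 2) := large15 (by norm_num) (by linarith)
    ((le_max_right _ _).trans ((le_max_right _ _).trans ((le_max_right _ _).trans hSD)))
  have hD1 : 1 ≤ S.D := by
    have : (0 : ℝ) ≤ m := Nat.cast_nonneg m
    linarith
  have hD0 : 0 < S.D := by linarith
  have hδ0 : 0 < δ := lt_of_lt_of_le (Real.rpow_pos_of_pos hD0 _) hδ1
  have hδle1 : δ ≤ 1 := by linarith
  have hδi : 1 ≤ δ⁻¹ := (one_le_inv₀ hδ0).2 hδle1
  have hpow : ∀ j : ℕ, j ≤ Ka → S.D ^ (-(τ / 8)) ≤ δ ^ j := by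
    intro j hj
    refine pow_ge15' hD1 hσ0.le (le_of_eq ?_) hδ1 hj
    field_simp
  have hpowi : ∀ j : ℕ, j ≤ Ka → δ⁻¹ ^ j ≤ S.D ^ (τ / 8) := fun j hj =>
    inv_pow_le15' hD0 (hpow j hj)
  have hIc : IG S c N xc lam := hI.mono (min_le_left _ _) hD1
  have hIw : IG S c N (w / 8) lam := hI.mono ((min_le_right _ _).trans (min_le_left _ _)) hD1
  have hIε : IG S c N (ε / 8) lam := hI.mono ((min_le_right _ _).trans (min_le_right _ _)) hD1
  have hQD : S.D ^ (2 : ℝ) ≤ (S.Q : ℝ) := hI.good.Q1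
  have hQ0 : (0 : ℝ) < S.Q := lt_of_lt_of_le (Real.rpow_pos_of_pos hD0 _) hQD
  have hP2 : ∀ i, S.D ^ (2 : ℝ) ≤ S.P i := by
    intro i
    refine le_trans ?_ (hIw.good.P1 i)
    calc S.D ^ (2 : ℝ) = S.D ^ (2 : ℝ) * 1 := (mul_one _).symm
      _ ≤ S.Q * S.D ^ (c i - w / 8) := by
        refine mul_le_mul hQD (Real.one_le_rpow hD1 ?_) zero_le_one hQ0.le
        linarith [hc.two i]
  have hP0 : ∀ i, 0 < S.P i := fun i => (Real.rpow_pos_of_pos hD0 _).trans_le (hP2 i)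
  -- replacing the lower functions
  obtain ⟨q, hq1, hq, b, cc, hb, hform2⟩ := hcr S N lam hDc hIc δ
    ((Real.rpow_le_rpow_of_exponent_le hD1 (by linarith)).trans
      ((hpow 1 (by omega)).trans (pow_one δ).le)) hδ2 hlam S.Q le_rfl
    (by
      refine mul_le_of_le_one_right hQ0.le ?_
      exact Real.rpow_le_one_of_one_le_of_nonpos hD1 (by linarith))
    (by rw [Real.rpow_zero, mul_one]) 1 f0 f (fun k => by simp) h0 hf (hf _) hform
  have hmem : ∀ i : Fin m, i.castSucc ∈ univ.erase (Fin.last m) := fun i => by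
    simp [(Fin.castSucc_lt_last i).ne]
  set G : ℕ → ℂ := fun k => 𝔼 x, f0 x * ∏ i, (if i ∈ univ.erase (Fin.last m) then
        e ((b i : ℝ) / N * (x + (S.a c i k : ZMod N)).val) * cc i (x + (S.a c i k : ZMod N))
        else f i (x + (S.a c i k : ZMod N))) with hG
  have hform3 : δ ^ Cc ≤ ‖𝔼 k ∈ S.I, G k‖ := by
    refine hform2.trans (le_of_eq ?_)
    congr 1
    unfold form
    refine expect_congr rfl fun k _ => ?_
    rw [Pi.one_apply, one_mul]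
  have hG1 : ∀ k, ‖G k‖ ≤ 1 := by
    intro k
    refine norm_expect_le_of5 _ _ zero_le_one fun x _ => ?_
    rw [norm_mul, norm_prod]
    refine mul_le_one₀ (h0.bdd x) (prod_nonneg fun _ _ => norm_nonneg _) ?_
    refine prod_le_one (fun _ _ => norm_nonneg _) fun i _ => ?_
    split_ifs with hi
    · rw [norm_mul, norm_e, one_mul]
      exact (hb i hi).2.2.1.bdd _
    · exact (hf i).bdd _
  -- the window
  set J : ℕ := ⌈S.D ^ (1 - w)⌉₊ with hJdef
  have hJ1 : S.D ^ (1 - w) ≤ J := Nat.le_ceil _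
  have hJ0 : 1 ≤ S.D ^ (1 - w) := Real.one_le_rpow hD1 (by linarith)
  have hJ2 : (J : ℝ) ≤ 2 * S.D ^ (1 - w) := by
    have := Nat.ceil_lt_add_one (a := S.D ^ (1 - w)) (by positivity)
    linarith
  have hJpos : 1 ≤ J := by
    have : (1 : ℝ) ≤ J := hJ0.trans hJ1
    exact_mod_cast this
  have hqD : (q : ℝ) ≤ S.D ^ (τ / 8) := hq.trans (hpowi Cc (by omega))
  have hη0 : 0 < δ ^ Cc := pow_pos hδ0 _
  have hη1 : δ ^ Cc ≤ 1 := pow_le_one₀ hδ0.le hδle1
  have hqJD : (q : ℝ) * J ≤ 2 * S.D ^ (1 - w + τ / 8) := by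
    calc (q : ℝ) * J ≤ S.D ^ (τ / 8) * (2 * S.D ^ (1 - w)) :=
          mul_le_mul hqD hJ2 (by positivity) (by positivity)
      _ = 2 * S.D ^ (1 - w + τ / 8) := by
          rw [Real.rpow_add hD0]
          ring
  have hqJ : 4 * (q : ℝ) * J ≤ δ ^ Cc * S.T := by
    calc 4 * (q : ℝ) * J = 4 * (q * J) := by ring
      _ ≤ 4 * (2 * S.D ^ (1 - w + τ / 8)) := by linarith
      _ = 8 * S.D ^ (1 - w + τ / 8) := by ring
      _ ≤ S.D ^ (w / 2) * S.D ^ (1 - w + τ / 8) := mul_le_mul_of_nonneg_right hD8 (by positivity)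
      _ = S.D ^ (1 - w / 2 + τ / 8) := by
          rw [← Real.rpow_add hD0]
          congr 1
          ring
      _ ≤ S.D ^ (-(τ / 8) + (1 - w / 8)) := by
          apply Real.rpow_le_rpow_of_exponent_le hD1
          linarith
      _ = S.D ^ (-(τ / 8)) * S.D ^ (1 - w / 8) := Real.rpow_add hD0 _ _
      _ ≤ δ ^ Cc * S.T := mul_le_mul (hpow Cc (by omega)) hIw.good.T1 (by positivity)
          (by positivity)
  have hTD : (S.T : ℝ) ≤ S.D := by
    have h1 := hI.good.u1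
    have h2 := hI.good.u2
    linarith
  have hqJD' : (q : ℝ) * J ≤ S.D := by
    have h1 : δ ^ Cc * S.T ≤ 1 * S.T := mul_le_mul_of_nonneg_right hη1 (Nat.cast_nonneg _)
    have h2 : 0 ≤ (q : ℝ) * J := by positivity
    linarith
  obtain ⟨r0, u', hr0, hu', huT, hwin⟩ := exists_window S (δ ^ Cc) q J hq1 hJpos hqJ G hG1 hform3
    hη0
  set k0 : ℕ := q * u' + r0 with hk0
  have hk0I : k0 ∈ S.I := by
    rw [Sys.I, mem_Ico]
    refine ⟨hu', ?_⟩
    have h1 : 1 ≤ q * J := Nat.mul_pos hq1 hJpos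
    have h2 : q * (u' + J) = q * u' + q * J := by ring
    omega
  set E : ℝ := (2 * Mc c + 1) * S.D ^ (-(w / 2)) with hEdef
  have hE0 : 0 ≤ E := by positivity
  have hE : ∀ (i : Fin m), ∀ j ∈ Ico u' (u' + J), ∀ x,
      ‖cc i.castSucc (x + (S.a c i.castSucc (q * j + r0) : ZMod N)) -
        cc i.castSucc (x + (S.a c i.castSucc k0 : ZMod N))‖ ≤ E := by
    intro i j hj x
    rw [mem_Ico] at hj
    obtain ⟨j', rfl⟩ := Nat.exists_eq_add_of_le hj.1
    have hj' : j' < J := by omega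
    have h1 : q * (u' + j') + r0 = k0 + q * j' := by rw [hk0]; ring
    rw [h1]
    obtain ⟨t, ht⟩ := step_div15 hI hD0 q k0 j' i.castSucc
    have h2 : x + (S.a c i.castSucc (k0 + q * j') : ZMod N) =
        x + (S.a c i.castSucc k0 : ZMod N) +
          ((stp S.Q q (c i.castSucc) * t : ℤ) : ZMod N) := by
      rw [ht]
      push_cast
      ring
    rw [h2]
    refine ((hb i.castSucc (hmem i)).2.2.2 _ t).trans ?_
    have h3 : |(t : ℝ)| * (stp S.Q q (c i.castSucc) : ℝ) =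
        |((S.a c i.castSucc (k0 + q * j') - S.a c i.castSucc k0 : ℤ) : ℝ)| := by
      rw [ht]
      push_cast
      rw [add_sub_cancel_left, abs_mul, Nat.abs_cast, mul_comm]
    rw [h3]
    have hqj' : ((q * j' : ℕ) : ℝ) ≤ q * J := by
      push_cast
      exact mul_le_mul_of_nonneg_left (by exact_mod_cast hj'.le) (Nat.cast_nonneg _)
    have h4 := a_diff hI.good hc0 hD1 hk0I (hqj'.trans hqJD') (fun i => (hP0 i).le) i.castSucc
    have h5 : ((q * j' : ℕ) : ℝ) / S.D ≤ 2 * S.D ^ (-w + τ / 8) := by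
      rw [div_le_iff₀ hD0]
      refine (hqj'.trans hqJD).trans (le_of_eq ?_)
      rw [mul_assoc, ← Real.rpow_add_one' hD0.le (by linarith)]
      congr 2
      ring
    have h6 : S.P i.castSucc * (Mc c * (((q * j' : ℕ) : ℝ) / S.D)) + 1 ≤
        S.P i.castSucc * (Mc c * (2 * S.D ^ (-w + τ / 8))) + 1 := by
      have := mul_le_mul_of_nonneg_left (mul_le_mul_of_nonneg_left h5 hMc0) (hP0 i.castSucc).le
      linarith
    have h7 : S.D ^ (w / 4) / S.P i.castSucc ≤ S.D ^ (-(w / 2)) := by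
      rw [div_le_iff₀ (hP0 _)]
      calc S.D ^ (w / 4) ≤ S.D ^ (-(w / 2) + 2) := by
            apply Real.rpow_le_rpow_of_exponent_le hD1
            linarith
        _ = S.D ^ (-(w / 2)) * S.D ^ (2 : ℝ) := Real.rpow_add hD0 _ _
        _ ≤ S.D ^ (-(w / 2)) * S.P i.castSucc := mul_le_mul_of_nonneg_left (hP2 _) (by positivity)
    have h8 : S.D ^ (-w + τ / 8) * S.D ^ (w / 4) ≤ S.D ^ (-(w / 2)) := by
      rw [← Real.rpow_add hD0]
      apply Real.rpow_le_rpow_of_exponent_le hD1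
      linarith
    calc |((S.a c i.castSucc (k0 + q * j') - S.a c i.castSucc k0 : ℤ) : ℝ)| * S.D ^ (w / 4) /
          S.P i.castSucc
        ≤ (S.P i.castSucc * (Mc c * (2 * S.D ^ (-w + τ / 8))) + 1) * S.D ^ (w / 4) /
          S.P i.castSucc := by
          apply div_le_div_of_nonneg_right _ (hP0 _).le
          exact mul_le_mul_of_nonneg_right (h4.trans h6) (by positivity)
      _ = 2 * Mc c * (S.D ^ (-w + τ / 8) * S.D ^ (w / 4)) + S.D ^ (w / 4) / S.P i.castSucc := by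
          have := (hP0 i.castSucc).ne'
          field_simp
      _ ≤ 2 * Mc c * S.D ^ (-(w / 2)) + S.D ^ (-(w / 2)) :=
          add_le_add (mul_le_mul_of_nonneg_left h8 (by positivity)) h7
      _ = E := by rw [hEdef]; ring
  have hmE : m * E ≤ δ ^ Cc / 4 := by
    have h1 : 4 * (m * E) ≤ A1 * S.D ^ (-(w / 2)) := by
      have h2 : 0 ≤ (2 * Mc c + 1) * S.D ^ (-(w / 2)) := hE0
      rw [hEdef, hA1]
      nlinarith
    have h3 : A1 * S.D ^ (-(w / 2)) ≤ S.D ^ (w / 4) * S.D ^ (-(w / 2)) :=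
      mul_le_mul_of_nonneg_right hDA (by positivity)
    have h4 : S.D ^ (w / 4) * S.D ^ (-(w / 2)) ≤ S.D ^ (-(τ / 8)) := by
      rw [← Real.rpow_add hD0]
      apply Real.rpow_le_rpow_of_exponent_le hD1
      linarith
    have h5 := hpow Cc (by omega)
    linarith
  have hwin2 := window15 S c h0.bdd f b cc (fun i x => (hb i.castSucc (hmem i)).2.2.1.bdd x)
    (hf (Fin.last m)).bdd (Ico u' (u' + J)) (fun j => q * j + r0) k0 E hE0 hE
  set fm : ZMod N → ℂ := f (Fin.last m) with hfm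
  set wt : ℕ → ℂ := fun j =>
    e (∑ i : Fin m, (b i.castSucc : ℝ) / N * (S.a c i.castSucc (q * j + r0))) with hwt
  set am : ℕ → ℤ := fun j => S.a c (Fin.last m) (q * j + r0) with ham
  have hL1 : δ ^ Cc / 4 ≤ 𝔼 x, ‖𝔼 j ∈ Ico u' (u' + J), wt j * fm (x + (am j : ZMod N))‖ := by
    linarith
  have hL2 : (δ ^ Cc) ^ 2 / 16 ≤
      𝔼 x, ‖𝔼 j ∈ Ico u' (u' + J), wt j * fm (x + (am j : ZMod N))‖ ^ 2 := by
    have h1 := expect_mul_sq_le_sq_mul_sq univ (fun _ => (1 : ℝ))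
      fun x : ZMod N => ‖𝔼 j ∈ Ico u' (u' + J), wt j * fm (x + (am j : ZMod N))‖
    simp only [one_mul, one_pow] at h1
    rw [expect_const univ_nonempty, one_mul] at h1
    refine le_trans ?_ h1
    calc (δ ^ Cc) ^ 2 / 16 = (δ ^ Cc / 4) ^ 2 := by ring
      _ ≤ _ := pow_le_pow_left₀ (by positivity) hL1 2
  rw [four_window15] at hL2
  set ξ : ℝ := (δ ^ Cc) ^ 2 / 32 with hξ
  have hξ0 : 0 < ξ := by positivity
  have hξ1 : ξ = δ ^ (2 * Cc) / 32 := by rw [hξ, ← pow_mul, mul_comm Cc 2]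
  set δ2 : ℝ := δ ^ c2 with hδ2def
  have hδ20 : 0 < δ2 := pow_pos hδ0 _
  have hδ2i : δ2⁻¹ = δ⁻¹ ^ c2 := by rw [hδ2def, inv_pow]
  have hδ2ξ : δ2 ≤ ξ / 2 := by
    rw [hδ2def, hξ1, hc2, pow_add]
    have h1 : δ ^ 6 ≤ (1 / 2) ^ 6 := pow_le_pow_left₀ hδ0.le hδ2 6
    have h2 : 0 < δ ^ (2 * Cc) := pow_pos hδ0 _
    nlinarith
  have hcard : ∀ (Z : ℕ → ℂ), (∀ j, ‖Z j‖ = 1) → ‖𝔼 j ∈ Ico u' (u' + J), Z j‖ ≤ 1 := fun Z hZ =>
    norm_expect_le_of5 _ _ zero_le_one fun j _ => (hZ j).le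
  have hWle : ∀ bb : ZMod N, ‖𝔼 j ∈ Ico u' (u' + J), wt j * e (fr bb * am j)‖ ≤ 1 := fun bb =>
    hcard _ fun j => by simp only [hwt, norm_mul, norm_e, mul_one]
  obtain ⟨q', hq'1, hq'R, hq'V⟩ := pigeon15 (hf (Fin.last m)).bdd
    (fun bb => ‖𝔼 j ∈ Ico u' (u' + J), wt j * e (fr bb * am j)‖ ^ 2)
    (fun bb => pow_le_one₀ (norm_nonneg _) (hWle bb)) ξ hξ0 (by
      refine le_trans (le_of_eq ?_) hL2
      rw [hξ]
      ring) ⌊δ2⁻¹ ^ Cr⌋₊
    (fun q' bb => dint ((q' : ℝ) * (fr bb * S.Q)) ≤ S.D ^ (ε / 4 - d)) (by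
      intro bb hbb
      have hZ : ξ ≤ ‖𝔼 j ∈ Ico u' (u' + J), wt j * e (fr bb * am j)‖ :=
        hbb.trans (pow_le_of_le_one (norm_nonneg _) (hWle bb) two_ne_zero)
      rw [expect_Ico15] at hZ
      set v : Fin (m + 1) → ℝ := Fin.snoc (α := fun _ => ℝ)
        (fun i : Fin m => (b i.castSucc : ℝ) / N * S.P i.castSucc)
        (fr bb * S.P (Fin.last m)) with hv
      have hθ : ∀ i : Fin m, |(b i.castSucc : ℝ) / N| ≤ δ⁻¹ ^ Cc / S.Q := fun i =>
        (hb i.castSucc (hmem i)).1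
      have hZ2 : ‖𝔼 j ∈ range J, wt (u' + j) * e (fr bb * am (u' + j)) -
          𝔼 j ∈ range J, e (∑ i, v i * ((((k0 + q * j : ℕ) : ℝ) + S.ρ) / S.D) ^ (c i))‖ ≤
          ξ / 2 := by
        rw [← expect_sub_distrib]
        refine norm_expect_le_of5 _ _ (by positivity) fun j _ => ?_
        have h1 : q * (u' + j) + r0 = k0 + q * j := by rw [hk0]; ring
        simp only [hwt, ham, h1]
        refine (phase15 hI hD0 d hd (fun i : Fin m => (b i.castSucc : ℝ) / N) (fr bb)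
          (k0 + q * j)).trans ?_
        have h2 : ∑ i : Fin m, |(b i.castSucc : ℝ) / N| ≤ m * (δ⁻¹ ^ Cc / S.Q) := by
          refine (sum_le_sum fun i _ => hθ i).trans (le_of_eq ?_)
          rw [sum_const, card_univ, Fintype.card_fin, nsmul_eq_mul]
        have h3 : 2 * Real.pi ≤ 8 := by linarith [Real.pi_le_four]
        have h4 : 512 * ((m : ℝ) + 1) * δ⁻¹ ^ Cc ≤ S.Q * δ ^ (2 * Cc) := by
          have h5 : 512 * ((m : ℝ) + 1) ≤ S.Q * δ ^ (3 * Cc) := by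
            calc 512 * ((m : ℝ) + 1) ≤ S.D := hDm
              _ = S.D ^ (2 : ℝ) * S.D ^ (-1 : ℝ) := by
                  rw [← Real.rpow_add hD0]
                  norm_num
              _ ≤ S.Q * δ ^ (3 * Cc) := by
                  refine mul_le_mul hQD ?_ (by positivity) hQ0.le
                  refine le_trans ?_ (hpow (3 * Cc) (by omega))
                  apply Real.rpow_le_rpow_of_exponent_le hD1
                  linarith
          have h6 : δ ^ (3 * Cc) * δ⁻¹ ^ Cc = δ ^ (2 * Cc) := by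
            rw [show 3 * Cc = 2 * Cc + Cc by ring, pow_add, mul_assoc, ← mul_pow,
              mul_inv_cancel₀ hδ0.ne', one_pow, mul_one]
          calc 512 * ((m : ℝ) + 1) * δ⁻¹ ^ Cc ≤ S.Q * δ ^ (3 * Cc) * δ⁻¹ ^ Cc :=
                mul_le_mul_of_nonneg_right h5 (by positivity)
            _ = S.Q * δ ^ (2 * Cc) := by rw [mul_assoc, h6]
        calc 2 * Real.pi * ∑ i : Fin m, |(b i.castSucc : ℝ) / N|
            ≤ 8 * (m * (δ⁻¹ ^ Cc / S.Q)) :=
              mul_le_mul h3 h2 (sum_nonneg fun _ _ => abs_nonneg _) (by norm_num)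
          _ = 8 * m * δ⁻¹ ^ Cc / S.Q := by ring
          _ ≤ ξ / 2 := by
              rw [div_le_iff₀ hQ0, hξ1]
              have h7 : 0 ≤ δ⁻¹ ^ Cc := by positivity
              nlinarith
      have hZ3 : δ2 ≤ ‖𝔼 j ∈ range J,
          e (∑ i, v i * ((((k0 + q * j : ℕ) : ℝ) + S.ρ) / S.D) ^ (c i))‖ := by
        have h1 := norm_sub_norm_le (𝔼 j ∈ range J, wt (u' + j) * e (fr bb * am (u' + j)))
          (𝔼 j ∈ range J, e (∑ i, v i * ((((k0 + q * j : ℕ) : ℝ) + S.ρ) / S.D) ^ (c i)))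
        linarith
      have hk0D : (k0 : ℝ) ≤ 2 * S.D := by
        have h1 : (k0 : ℝ) ≤ S.u + S.T := by
          have h2 : k0 ≤ S.u + S.T := by
            have h3 : q * (u' + J) = q * u' + q * J := by ring
            omega
          exact_mod_cast h2
        exact h1.trans hI.good.u2
      have hkey := hr S.D hDr S.ρ hI.good.ρ0 hI.good.ρ1 lam hI.lam1 hI.rho δ2
        ((Real.rpow_le_rpow_of_exponent_le hD1 (by linarith)).trans (hpow c2 (by omega)))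
        ((pow_le_of_le_one hδ0.le hδle1 (by omega)).trans hδ2)
        (hlam.trans (by rw [hδ2i]; exact le_self_pow₀ hδi (by omega))) v
        (by
          intro i
          refine Fin.lastCases ?_ (fun i => ?_) i
          · rw [hv, Fin.snoc_last, abs_mul, abs_of_pos (hP0 _)]
            calc |fr bb| * S.P (Fin.last m) ≤ 1 * S.P (Fin.last m) := by
                  refine mul_le_mul_of_nonneg_right ?_ (hP0 _).le
                  linarith [abs_fr_le bb]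
              _ = S.P (Fin.last m) := one_mul _
              _ ≤ S.Q * S.D ^ (c (Fin.last m) + w / 8) := hIw.good.P2 _
              _ ≤ S.D ^ (3 : ℝ) * S.D ^ (c (Fin.last m) + w / 8) :=
                  mul_le_mul_of_nonneg_right hI.good.Q2 (by positivity)
              _ = S.D ^ (3 + (c (Fin.last m) + w / 8)) := (Real.rpow_add hD0 _ _).symm
              _ ≤ S.D ^ (c (Fin.last m) + 5) := by
                  apply Real.rpow_le_rpow_of_exponent_le hD1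
                  linarith
          · rw [hv, Fin.snoc_castSucc, abs_mul, abs_of_pos (hP0 _)]
            calc |(b i.castSucc : ℝ) / N| * S.P i.castSucc
                ≤ (δ⁻¹ ^ Cc / S.Q) * (S.Q * S.D ^ (c i.castSucc + w / 8)) :=
                  mul_le_mul (hθ i) (hIw.good.P2 _) (hP0 _).le (by positivity)
              _ = δ⁻¹ ^ Cc * S.D ^ (c i.castSucc + w / 8) := by field_simp
              _ ≤ S.D ^ (τ / 8) * S.D ^ (c i.castSucc + w / 8) :=
                  mul_le_mul_of_nonneg_right (hpowi Cc (by omega)) (by positivity)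
              _ = S.D ^ (τ / 8 + (c i.castSucc + w / 8)) := (Real.rpow_add hD0 _ _).symm
              _ ≤ S.D ^ (c (Fin.last m) + 5) := by
                  apply Real.rpow_le_rpow_of_exponent_le hD1
                  linarith [hcm i.castSucc])
        q k0 J hq1
        (hq.trans (by rw [hδ2i]; exact pow_le_pow_right₀ hδi (by omega)))
        (hI.good.u1.trans (by exact_mod_cast hu'))
        (hk0D.trans (by linarith))
        ((Real.rpow_le_rpow_of_exponent_le hD1 (by linarith)).trans hJ1)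
        hqJD' hZ3
      obtain ⟨-, q', hq'1, hq', hq'd⟩ := hkey
      refine ⟨q', hq'1, Nat.le_floor hq', ?_⟩
      have h1 := hq'd (Fin.last m) d hd
      rw [hv, Fin.snoc_last, hI.Pint (Fin.last m) d hd] at h1
      have h2 : fr bb * (S.Q * (lam * S.D) ^ d) / (lam * S.D) ^ d = fr bb * S.Q := by
        have h3 : (lam : ℝ) ≠ 0 := by
          have := hI.lam1
          have h4 : lam ≠ 0 := by omega
          exact_mod_cast h4
        have h5 : ((lam : ℝ) * S.D) ^ d ≠ 0 := pow_ne_zero _ (mul_ne_zero h3 hD0.ne')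
        rw [← mul_assoc, mul_div_assoc, div_self h5, mul_one]
      rw [h2] at h1
      exact h1)
  classical
  have hRpos : 1 ≤ ⌊δ2⁻¹ ^ Cr⌋₊ := hq'1.trans hq'R
  have hRle : ((⌊δ2⁻¹ ^ Cr⌋₊ : ℕ) : ℝ) ≤ δ⁻¹ ^ (c2 * Cr) := by
    refine (Nat.floor_le (by positivity)).trans (le_of_eq ?_)
    rw [hδ2i, ← pow_mul]
  have hq'δ : (q' : ℝ) ≤ δ⁻¹ ^ (c2 * Cr) := le_trans (by exact_mod_cast hq'R) hRle
  refine ⟨q', hq'1, hq'δ.trans (pow_le_pow_right₀ hδi (by omega)), ?_⟩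
  intro L hL hLP
  have hfin := nrm_Aq_ge15 (hf (Fin.last m)).bdd (S.Q * q') L _ _ hq'V (by
    intro bb hbb
    have hbb' : dint ((q' : ℝ) * (fr bb * S.Q)) ≤ S.D ^ (ε / 4 - d) := (mem_filter.1 hbb).2
    have h1 : ∀ a : ℕ, fr bb * ((S.Q * q' * a : ℕ) : ℝ) = (q' : ℝ) * (fr bb * S.Q) * a := by
      intro a
      push_cast
      ring
    simp only [h1]
    refine half_le_norm15 _ _ L hL hbb' ?_
    have hq'1' : (1 : ℝ) ≤ q' := by exact_mod_cast hq'1
    have h2 : (L : ℝ) * S.Q ≤ S.P (Fin.last m) * S.D ^ (-ε) := by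
      refine le_trans ?_ hLP
      push_cast
      have : (S.Q : ℝ) ≤ S.Q * q' := le_mul_of_one_le_right hQ0.le hq'1'
      exact mul_le_mul_of_nonneg_left this (Nat.cast_nonneg _)
    have h3 : (L : ℝ) * S.Q ≤ S.Q * S.D ^ ((d : ℝ) + ε / 8 - ε) := by
      refine h2.trans ?_
      rw [← hd]
      calc S.P (Fin.last m) * S.D ^ (-ε) ≤ S.Q * S.D ^ (c (Fin.last m) + ε / 8) * S.D ^ (-ε) :=
            mul_le_mul_of_nonneg_right (hIε.good.P2 _) (by positivity)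
        _ = S.Q * S.D ^ (c (Fin.last m) + ε / 8 - ε) := by
            rw [mul_assoc, ← Real.rpow_add hD0]
            congr 2
    have h4 : (L : ℝ) ≤ S.D ^ ((d : ℝ) + ε / 8 - ε) := by
      rw [mul_comm] at h3
      exact le_of_mul_le_mul_left h3 hQ0
    have h5 : (L : ℝ) * S.D ^ (ε / 4 - (d : ℝ)) ≤ S.D ^ (-(ε / 2)) := by
      calc (L : ℝ) * S.D ^ (ε / 4 - (d : ℝ)) ≤
            S.D ^ ((d : ℝ) + ε / 8 - ε) * S.D ^ (ε / 4 - (d : ℝ)) :=
            mul_le_mul_of_nonneg_right h4 (by positivity)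
        _ = S.D ^ ((d : ℝ) + ε / 8 - ε + (ε / 4 - (d : ℝ))) := (Real.rpow_add hD0 _ _).symm
        _ ≤ S.D ^ (-(ε / 2)) := by
            apply Real.rpow_le_rpow_of_exponent_le hD1
            linarith
    have h6 : 14 * S.D ^ (-(ε / 2)) ≤ 1 := by
      calc 14 * S.D ^ (-(ε / 2)) ≤ S.D ^ (ε / 2) * S.D ^ (-(ε / 2)) :=
            mul_le_mul_of_nonneg_right hD14 (by positivity)
        _ = 1 := by rw [← Real.rpow_add hD0, add_neg_cancel, Real.rpow_zero]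
    have h7 : 2 * Real.pi ≤ 7 := by linarith [Real.pi_lt_d2]
    have h8 : 0 ≤ S.D ^ (-(ε / 2)) := by positivity
    calc 2 * Real.pi * (L * S.D ^ (ε / 4 - (d : ℝ))) ≤ 7 * S.D ^ (-(ε / 2)) :=
          mul_le_mul h7 h5 (by positivity) (by norm_num)
      _ ≤ 1 / 2 := by linarith)
  refine le_trans ?_ hfin
  have hRr : (0 : ℝ) < ((⌊δ2⁻¹ ^ Cr⌋₊ : ℕ) : ℝ) := by exact_mod_cast hRpos
  rw [div_div, le_div_iff₀ (by positivity)]
  have h1 : δ ^ C * ((⌊δ2⁻¹ ^ Cr⌋₊ : ℕ) * 4) ≤ δ ^ C * (δ⁻¹ ^ (c2 * Cr) * 4) := by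
    apply mul_le_mul_of_nonneg_left _ (by positivity)
    linarith
  refine h1.trans ?_
  have h2 : δ ^ C * (δ⁻¹ ^ (c2 * Cr) * 4) = δ ^ (2 * Cc) * δ ^ 7 * 4 := by
    rw [hC, pow_add, pow_add]
    have h3 : δ ^ (c2 * Cr) * δ⁻¹ ^ (c2 * Cr) = 1 := by
      rw [← mul_pow, mul_inv_cancel₀ hδ0.ne', one_pow]
    linear_combination (δ ^ (2 * Cc) * δ ^ 7 * 4) * h3
  rw [h2, hξ1]
  have h3 : δ ^ 7 ≤ (1 / 2) ^ 7 := pow_le_pow_left₀ hδ0.le hδ2 7
  have h4 : 0 < δ ^ (2 * Cc) := pow_pos hδ0 _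
  nlinarith

theorem top_arith_of15 (m : ℕ) (c : Fin (m + 1) → ℝ) (hR : RatlSt15 c) (hc : Ex c) (d : ℕ)
    (hd : c (Fin.last m) = d)
    (hJ : ∀ ε : ℝ, 0 < ε → UsJ m c 0 ε (univ.erase (Fin.last m))) :
    ∀ ε : ℝ, 0 < ε → UsJ m c 0 ε univ := by
  intro ε hε
  obtain ⟨x1, hx1, C1, σ1, hσ1, D1, H1⟩ := top_last15 m c hR hc d hd hJ ε hε
  obtain ⟨x2, hx2, C2, σ2, hσ2, D2, H2⟩ := hJ ε hε
  refine ⟨min x1 x2, lt_min hx1 hx2, C1 + C2, min σ1 σ2, lt_min hσ1 hσ2, max 1 (max D1 D2), ?_⟩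
  intro S N _ lam hD hI δ hδ1 hδ2 hlam X hQX hX f0 f h0 hf hfX hform
  have hD1 : 1 ≤ S.D := (le_max_left _ _).trans hD
  have hD0 : 0 < S.D := by linarith
  have hδ0 : 0 < δ := lt_of_lt_of_le (Real.rpow_pos_of_pos hD0 _) hδ1
  have hδle1 : δ ≤ 1 := by linarith
  have hδi : 1 ≤ δ⁻¹ := (one_le_inv₀ hδ0).2 hδle1
  have hs1 : min σ1 σ2 ≤ σ1 := min_le_left _ _
  have hs2 : min σ1 σ2 ≤ σ2 := min_le_right _ _
  obtain ⟨q1, hq11, hq1, h1⟩ := H1 S N lam
    ((le_max_left _ _).trans ((le_max_right _ _).trans hD)) (hI.mono (min_le_left _ _) hD1) δ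
    ((Real.rpow_le_rpow_of_exponent_le hD1 (by linarith)).trans hδ1) hδ2 hlam f0 f h0 hf hform
  obtain ⟨q2, hq21, hq2, h2⟩ := H2 S N lam
    ((le_max_right _ _).trans ((le_max_right _ _).trans hD)) (hI.mono (min_le_right _ _) hD1) δ
    ((Real.rpow_le_rpow_of_exponent_le hD1 (by linarith)).trans hδ1) hδ2 hlam X hQX
    (le_trans (mul_le_mul_of_nonneg_left (Real.rpow_le_rpow_of_exponent_le hD1 (by linarith))
      (Nat.cast_nonneg _)) hX) f0 f h0 hf hfX hform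
  refine ⟨q1 * q2, Nat.mul_pos hq11 hq21, ?_, ?_⟩
  · push_cast
    rw [pow_add]
    exact mul_le_mul hq1 hq2 (by positivity) (by positivity)
  · intro i _ L hL hLP
    by_cases hi : i = Fin.last m
    · subst hi
      have hN : IsN (c (Fin.last m)) := ⟨d, hd⟩
      rw [stp_nat _ _ hN] at hLP ⊢
      have e1 : S.Q * (q1 * q2) = (S.Q * q1) * q2 := by ring
      rw [e1] at hLP ⊢
      refine le_trans ?_ (nrm_Aq_mul (S.Q * q1) q2 L hq21 (f (Fin.last m)))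
      refine le_trans (pow_le_pow_of_le_one hδ0.le hδle1 (Nat.le_add_right C1 C2))
        (h1 (q2 * L) (Nat.mul_pos hq21 hL) (le_trans (le_of_eq ?_) hLP))
      push_cast
      ring
    · have hie : i ∈ univ.erase (Fin.last m) := mem_erase.2 ⟨hi, mem_univ _⟩
      by_cases hN : IsN (c i)
      · have h3 := h2 i hie (q1 * L) (Nat.mul_pos hq11 hL)
        rw [stp_nat _ _ hN] at hLP h3 ⊢
        have e1 : S.Q * (q1 * q2) = (S.Q * q2) * q1 := by ring
        rw [e1] at hLP ⊢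
        refine le_trans ?_ (nrm_Aq_mul (S.Q * q2) q1 L hq11 (f i))
        refine le_trans (pow_le_pow_of_le_one hδ0.le hδle1 (Nat.le_add_left C2 C1))
          (h3 (le_trans (le_of_eq ?_) hLP))
        push_cast
        ring
      · have h3 := h2 i hie L hL
        rw [stp_not _ _ hN] at hLP h3 ⊢
        exact le_trans (pow_le_pow_of_le_one hδ0.le hδle1 (Nat.le_add_left C2 C1)) (h3 hLP)

end

end Pool.Agent.Helper67.NX2
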